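import Pool.Agent.W_8c5d11_f73.K

/-!
MP_8c5d11_gt: the bound for intervals with two inexact ends.
-/

open Set
open scoped Real

namespace Pool.Agent.W_8c5d11_f73

open Pool.Agent.W_8c5d11_v22

/-- the bound for intervals with two inexact ends -/
def BP (c : ℝ) (n : ℕ) : Prop :=
  ∀ (y : ℂ) (θ a b l A T : ℝ), 0 ≤ A → A ≤ π / 3 → 0 ≤ T → T ≤ π / 3 → (A ≤ π / 6 ∨ T ≤ π / 6) →
    a ≤ θ - π / 2 + A → θ + π / 2 - T ≤ b →
    GG c n y a b l → Lam c - A - T + min A T / 2 ≤ l + dt (un θ) y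

theorem B_term {c : ℝ} (hc0 : 0 < c) (hc : c < π / 2) {n : ℕ} {y : ℂ} {θ a b l A T : ℝ}
    (hA : π / 6 + c ≤ A) (hA2 : A ≤ π / 3) (hT0 : 0 ≤ T) (hT : T ≤ π / 6)
    (ha : a ≤ θ - π / 2 + A) (hb : θ + π / 2 - T ≤ b)
    (G : GG c n y a b l) : Lam c - A - T + min A T / 2 ≤ l + dt (un θ) y := by
  have hpi := Real.pi_pos
  have hmin : min A T ≤ T := min_le_right _ _
  by_cases h2 : 2 * T ≤ π / 2 - A + c
  · have h := certT (q := π / 2 - A) (χ := π / 2 - A + c) (τ := T) hc0 hc (by linarith)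
      (by linarith) (by linarith) hT0 h2 (by linarith) n y θ a b l (by linarith)
      (by linarith) G
    rw [show π / 2 - A + c - (π / 2 - A) = c by ring] at h
    have h3 := nB_T hT0 hT
    unfold Lam
    linarith
  · have h2' := (not_le.1 h2).le
    have h := certP_small (q := π / 2 - A) (τ := T) hc0 hc (by linarith) (by linarith) h2' hT
      (by linarith) n y θ a b l (by linarith) (by linarith) G
    have h3 := nB_P (χ := π / 2 - A + c) hc0 hc (by linarith) h2' hT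
    unfold Lam
    linarith

theorem B_mid {c : ℝ} (hc0 : 0 < c) (hc : c < π / 2) {n : ℕ} {y : ℂ} {θ a b l m s A T : ℝ}
    (hA0 : 0 ≤ A) (hA3 : A ≤ π / 3) (hT0 : 0 ≤ T) (hT3 : T ≤ π / 3) (hm : A ≤ π / 6 ∨ T ≤ π / 6)
    (hA : A ≤ π / 6 + c) (hT : T ≤ π / 6 + c) (hs1 : θ - π / 2 + A < s) (hs2 : s < θ + π / 2 - T)
    (ha : a ≤ θ - π / 2 + A) (hb : θ + π / 2 - T ≤ b) (G1 : GG c n y a s l)
    (G2 : GG c n y s b m) : Lam c - A - T + min A T / 2 ≤ l + m + dt (un θ) y := by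
  have hpi := Real.pi_pos
  have hmin1 : min A T ≤ A := min_le_left _ _
  have hmin2 : min A T ≤ T := min_le_right _ _
  by_cases hN : A ≤ π / 6 ∧ s - (θ - π / 2 + A) ≤ π / 3 - A
  · have k1 := near_split hc0 hc (K_all hc0 hc n) hA0 hN.1 hT0 hT hs1 hN.2 ha hb G1 G2
    have k2 := nB_T hA0 hN.1
    linarith
  by_cases hF : T ≤ π / 6 ∧ θ + π / 2 - T - s ≤ π / 3 - T
  · have k1 := near_split hc0 hc (K_all hc0 hc n) (θ := -θ) (A := T) (T := A) (s := -s) hT0 hF.1
      hA0 hA (by linarith) (by linarith [hF.2]) (by linarith) (by linarith) G2.conj G1.conj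
    rw [dt_conj] at k1
    have k2 := nB_T hT0 hF.1
    linarith
  exact mid_split hc0 hc hA0 hA hT0 hT hm hs1 hs2
    (fun h => by
      by_contra hcon
      exact hN ⟨h, (not_le.1 hcon).le⟩)
    (fun h => by
      by_contra hcon
      exact hF ⟨h, (not_le.1 hcon).le⟩) ha hb G1 G2

/-- **The bound for intervals with two inexact ends.** -/
theorem B_all {c : ℝ} (hc0 : 0 < c) (hc : c < π / 2) (n : ℕ) : BP c n := by
  have hpi := Real.pi_pos
  -- the terminal cases
  have term : ∀ {n : ℕ} {y : ℂ} {θ a b l A T : ℝ}, 0 ≤ A → A ≤ π / 3 → 0 ≤ T → T ≤ π / 3 →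
      (A ≤ π / 6 ∨ T ≤ π / 6) → ¬ (A ≤ π / 6 + c ∧ T ≤ π / 6 + c) → a ≤ θ - π / 2 + A →
      θ + π / 2 - T ≤ b → GG c n y a b l → Lam c - A - T + min A T / 2 ≤ l + dt (un θ) y := by
    intro n y θ a b l A T hA0 hA3 hT0 hT3 hm hne ha hb G
    by_cases hA : A ≤ π / 6 + c
    · have hT : π / 6 + c ≤ T := by
        by_contra hcon
        exact hne ⟨hA, (not_le.1 hcon).le⟩
      have hA6 : A ≤ π / 6 := by
        rcases hm with h | h
        · exact h
        · linarith
      have k := B_term hc0 hc (θ := -θ) hT hT3 hA0 hA6 (by linarith) (by linarith) G.conj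
      rw [dt_conj, min_comm] at k
      linarith
    · have hA' := (not_le.1 hA).le
      have hT6 : T ≤ π / 6 := by
        rcases hm with h | h
        · linarith
        · exact h
      exact B_term hc0 hc hA' hA3 hT0 hT6 ha hb G
  induction n with
  | zero =>
    intro y θ a b l A T hA0 hA3 hT0 hT3 hm ha hb G
    by_cases hte : A ≤ π / 6 + c ∧ T ≤ π / 6 + c
    swap
    · exact term hA0 hA3 hT0 hT3 hm hte ha hb G
    cases G with
    | leaf _ hcov =>
      have h1 : θ - π / 2 + A < θ ∨ θ < θ + π / 2 - T := by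
        left; linarith
      have g1 : GG c 0 y a θ 0 := Gd.leaf (by linarith) fun t ht => hcov t ⟨ht.1, by linarith [ht.2]⟩
      have g2 : GG c 0 y θ b 0 := Gd.leaf (by linarith) fun t ht => hcov t ⟨by linarith [ht.1], ht.2⟩
      have k := B_mid hc0 hc hA0 hA3 hT0 hT3 hm hte.1 hte.2 (s := θ) (by linarith) (by linarith)
        ha hb g1 g2
      linarith
  | succ n ih =>
    intro y θ a b l A T hA0 hA3 hT0 hT3 hm ha hb G
    by_cases hte : A ≤ π / 6 + c ∧ T ≤ π / 6 + c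
    swap
    · exact term hA0 hA3 hT0 hT3 hm hte ha hb G
    cases G with
    | mono G => exact ih y θ a b l A T hA0 hA3 hT0 hT3 hm ha hb G
    | @ext _ _ z _ _ l' G =>
      have k1 := ih z θ a b l' A T hA0 hA3 hT0 hT3 hm ha hb G
      have k2 := dt_ext (θ := θ) (y := y) (z := z)
      linarith
    | @split _ _ _ s _ l' m h3 h4 G1 G2 =>
      have p1 := G1.nonneg
      have p2 := G2.nonneg
      by_cases hs1 : s ≤ θ - π / 2 + A
      · have k1 := ih y θ s b m A T hA0 hA3 hT0 hT3 hm hs1 hb G2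
        linarith
      by_cases hs2 : θ + π / 2 - T ≤ s
      · have k1 := ih y θ a s l' A T hA0 hA3 hT0 hT3 hm ha hs2 G1
        linarith
      exact B_mid hc0 hc hA0 hA3 hT0 hT3 hm hte.1 hte.2 (not_le.1 hs1) (not_le.1 hs2) ha hb G1 G2

end Pool.Agent.W_8c5d11_f73
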