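import Pool.Agent.W_8c5d11_f73.Close

/-!
MP_8c5d11_gt: the certificates used in the horseshoe theorem.
-/

open Set
open scoped Real

namespace Pool.Agent.W_8c5d11_f73

open Pool.Agent.W_8c5d11_v22

theorem dt_smul (s : ℝ) (u v : ℂ) : dt ((s : ℂ) * u) v = s * dt u v := by
  simp only [dt, Complex.re_ofReal_mul, Complex.im_ofReal_mul]
  ring

theorem dt_zero (v : ℂ) : dt 0 v = 0 := by simp [dt]

theorem norm_smul_un (s θ : ℝ) : ‖(s : ℂ) * un θ‖ = |s| := by
  rw [norm_mul, norm_un, mul_one, Complex.norm_real, Real.norm_eq_abs]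

theorem un_add_pi (t : ℝ) : un (t + π) = -un t := by
  apply Complex.ext <;> simp [un, Real.cos_add_pi, Real.sin_add_pi]

/-- the chord `un β - un α` -/
theorem un_sub (α β : ℝ) : un β - un α =
    ((2 * Real.sin ((β - α) / 2) : ℝ) : ℂ) * un ((α + β) / 2 + π / 2) := by
  apply Complex.ext
  · simp only [un, Complex.sub_re, Complex.re_ofReal_mul, Real.cos_add_pi_div_two]
    rw [Real.cos_sub_cos, show (β + α) / 2 = (α + β) / 2 by ring]
    ring
  · simp only [un, Complex.sub_im, Complex.im_ofReal_mul, Real.sin_add_pi_div_two]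
    rw [Real.sin_sub_sin, show (β + α) / 2 = (α + β) / 2 by ring]

theorem cov_zero {c : ℝ} (hc0 : 0 < c) (hc : c < π / 2) {t : ℝ} {x : ℂ}
    (h : dist (pt (1 / Real.sin c) t) x ≤ 1 / Real.sin c - 1) : 1 ≤ dt (un t) x := by
  have := cov hc0 hc (θ := t) h
  rwa [sub_self, phi_zero] at this

/-- curve of type T: jump `un (θ-χ)` at the near end, unit arc, last jump `2 sin τ` -/
theorem certT {c q χ τ : ℝ} (hc0 : 0 < c) (hc : c < π / 2) (hχ : χ ≤ π / 3) (hq1 : q ≤ χ)
    (hq2 : χ ≤ q + π / 2) (h0 : 0 ≤ τ) (hτ : 2 * τ ≤ χ) (hqτ : 0 < q + π / 2 - τ) :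
    Cert c q (π / 2 - τ) (phi c (χ - q) + (χ - 2 * τ) + 2 * Real.sin τ) := by
  intro n y θ a b l ha hb h
  have hpi := Real.pi_pos
  have hs0 : 0 ≤ Real.sin τ := Real.sin_nonneg_of_nonneg_of_le_pi h0 (by linarith)
  have e1 : un (θ - χ + π / 2 - π / 2) = un (θ - χ) := by rw [add_sub_cancel_right]
  have e2 : un (θ - 2 * τ + π / 2 - π / 2) + ((2 * Real.sin τ : ℝ) : ℂ) * un (θ + π / 2 - τ) =
      un θ := by
    have h1 := un_sub (θ - 2 * τ) θ
    rw [show (θ - (θ - 2 * τ)) / 2 = τ by ring,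
      show (θ - 2 * τ + θ) / 2 + π / 2 = θ + π / 2 - τ by ring] at h1
    rw [add_sub_cancel_right, ← h1]
    ring
  have key := closing hc0 hc (a₁ := θ - q) (t₁ := θ - χ + π / 2) (t₂ := θ - 2 * τ + π / 2)
    (b₁ := θ + π / 2 - τ) (v₁ := phi c (χ - q)) (v₂ := 2 * Real.sin τ) (p₁ := un (θ - χ))
    (p₂ := ((2 * Real.sin τ : ℝ) : ℂ) * un (θ + π / 2 - τ))
    (by linarith) (by linarith) (by linarith) (by linarith)
    (fun x hx => by
      have h1 := cov hc0 hc (θ := θ - χ) hx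
      rw [show θ - χ - (θ - q) = -(χ - q) by ring, phi_neg] at h1
      exact h1)
    (fun x hx => by
      have h1 := cov_zero hc0 hc hx
      rw [dt_smul]
      nlinarith)
    (fun s hs => by
      rw [e1, add_sub_cancel, norm_un])
    (fun s hs => by
      have e3 : un (θ - 2 * τ + π / 2 - π / 2) - un (s - π / 2) +
          ((2 * Real.sin τ : ℝ) : ℂ) * un (θ + π / 2 - τ) = un θ - un (s - π / 2) := by
        rw [← e2]; ring
      rw [e3]
      refine chord_le (abs_le.2 ⟨?_, ?_⟩)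
      · linarith [hs.2]
      · linarith [hs.1])
    (by linarith)
    (by
      rw [e1, add_sub_cancel, e2, norm_un])
    h ha (by linarith)
  rw [e1, add_sub_cancel, e2] at key
  linarith

/-- triangle: jumps at the two ends with tilts `χ - q` and `ρ - r` -/
theorem certP {c q r χ ρ : ℝ} (hc0 : 0 < c) (hc : c < π / 2) (hχ : 0 ≤ χ) (hρ : 0 ≤ ρ)
    (hp : 0 < χ + ρ) (hp' : χ + ρ < π) (hqr : 0 < q + r)
    (h1 : Real.sin ρ ≤ Real.sin (χ + ρ)) (h2 : Real.sin χ ≤ Real.sin (χ + ρ)) :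
    Cert c q r (phi c (χ - q) * (Real.sin ρ / Real.sin (χ + ρ)) +
      phi c (ρ - r) * (Real.sin χ / Real.sin (χ + ρ))) := by
  intro n y θ a b l ha hb h
  have hpi := Real.pi_pos
  have hs : 0 < Real.sin (χ + ρ) := Real.sin_pos_of_pos_of_lt_pi hp hp'
  have hsρ : 0 ≤ Real.sin ρ := Real.sin_nonneg_of_nonneg_of_le_pi hρ (by linarith)
  have hsχ : 0 ≤ Real.sin χ := Real.sin_nonneg_of_nonneg_of_le_pi hχ (by linarith)
  set α : ℝ := Real.sin ρ / Real.sin (χ + ρ) with hα
  set β : ℝ := Real.sin χ / Real.sin (χ + ρ) with hβ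
  have hα0 : 0 ≤ α := div_nonneg hsρ hs.le
  have hβ0 : 0 ≤ β := div_nonneg hsχ hs.le
  have hα1 : α ≤ 1 := (div_le_one hs).2 h1
  have hβ1 : β ≤ 1 := (div_le_one hs).2 h2
  have hαs : α * Real.sin (χ + ρ) = Real.sin ρ := div_mul_cancel₀ _ hs.ne'
  have hβs : β * Real.sin (χ + ρ) = Real.sin χ := div_mul_cancel₀ _ hs.ne'
  have e2 : (α : ℂ) * un (θ - χ) + (β : ℂ) * un (θ + ρ) = un θ := by
    have i1 : Real.sin ρ * Real.cos (θ - χ) + Real.sin χ * Real.cos (θ + ρ) =
        Real.sin (χ + ρ) * Real.cos θ := by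
      rw [Real.cos_sub, Real.cos_add, Real.sin_add]; ring
    have i2 : Real.sin ρ * Real.sin (θ - χ) + Real.sin χ * Real.sin (θ + ρ) =
        Real.sin (χ + ρ) * Real.sin θ := by
      rw [Real.sin_sub, Real.sin_add, Real.sin_add]; ring
    apply Complex.ext
    · simp only [un, Complex.add_re, Complex.re_ofReal_mul]
      rw [← hαs, ← hβs] at i1
      have := mul_left_cancel₀ hs.ne' (a := Real.sin (χ + ρ))
        (b := α * Real.cos (θ - χ) + β * Real.cos (θ + ρ)) (c := Real.cos θ) (by linarith)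
      exact this
    · simp only [un, Complex.add_im, Complex.im_ofReal_mul]
      rw [← hαs, ← hβs] at i2
      have := mul_left_cancel₀ hs.ne' (a := Real.sin (χ + ρ))
        (b := α * Real.sin (θ - χ) + β * Real.sin (θ + ρ)) (c := Real.sin θ) (by linarith)
      exact this
  have key := closing hc0 hc (a₁ := θ - q) (t₁ := θ - q) (t₂ := θ - q) (b₁ := θ + r)
    (v₁ := phi c (χ - q) * α) (v₂ := phi c (ρ - r) * β) (p₁ := (α : ℂ) * un (θ - χ))
    (p₂ := (β : ℂ) * un (θ + ρ)) le_rfl le_rfl (by linarith) (by linarith)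
    (fun x hx => by
      have h3 := cov hc0 hc (θ := θ - χ) hx
      rw [show θ - χ - (θ - q) = -(χ - q) by ring, phi_neg] at h3
      rw [dt_smul, mul_comm]
      exact mul_le_mul_of_nonneg_left h3 hα0)
    (fun x hx => by
      have h3 := cov hc0 hc (θ := θ + ρ) hx
      rw [show θ + ρ - (θ + r) = ρ - r by ring] at h3
      rw [dt_smul, mul_comm]
      exact mul_le_mul_of_nonneg_left h3 hβ0)
    (fun s hs => by
      have : s = θ - q := le_antisymm hs.2 hs.1
      rw [this, sub_self, add_zero, norm_smul_un, abs_of_nonneg hα0]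
      exact hα1)
    (fun s hs => by
      have : s = θ - q := le_antisymm hs.2 hs.1
      rw [this, sub_self, zero_add, norm_smul_un, abs_of_nonneg hβ0]
      exact hβ1)
    (by linarith)
    (by
      rw [sub_self, add_zero, e2, norm_un])
    h ha hb
  rw [sub_self, sub_self, add_zero, add_zero, e2] at key
  exact key

/-- a single jump at the near end -/
theorem certS {c q r : ℝ} (hc0 : 0 < c) (hc : c < π / 2) (hqr : 0 < q + r) :
    Cert c q r (phi c q) := by
  intro n y θ a b l ha hb h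
  have hpi := Real.pi_pos
  have key := closing hc0 hc (a₁ := θ - q) (t₁ := θ - q) (t₂ := θ - q) (b₁ := θ + r)
    (v₁ := phi c q) (v₂ := 0) (p₁ := un θ) (p₂ := 0) le_rfl le_rfl (by linarith) (by linarith)
    (fun x hx => by
      have h3 := cov hc0 hc (θ := θ) hx
      rw [show θ - (θ - q) = q by ring] at h3
      exact h3)
    (fun x hx => by rw [dt_zero])
    (fun s hs => by
      have : s = θ - q := le_antisymm hs.2 hs.1
      rw [this, sub_self, add_zero, norm_un])
    (fun s hs => by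
      have : s = θ - q := le_antisymm hs.2 hs.1
      rw [this, sub_self, zero_add, norm_zero]; exact zero_le_one)
    (by linarith)
    (by rw [sub_self, add_zero, add_zero, norm_un])
    h ha hb
  rw [sub_self, sub_self, add_zero, add_zero, add_zero, add_zero] at key
  exact key

/-- the mirror image of a certificate -/
theorem Cert.mirror {c q r v : ℝ} (h : Cert c q r v) {n : ℕ} {y : ℂ} {θ a b l : ℝ}
    (ha : a ≤ θ - r) (hb : θ + q ≤ b) (hG : GG c n y a b l) : v ≤ l + dt (un θ) y := by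
  have h1 := h n _ (-θ) (-b) (-a) l (by linarith) (by linarith) hG.conj
  rwa [dt_conj] at h1

/-- the unit arc -/
theorem arc_cert {c : ℝ} (hc0 : 0 < c) (hc : c < π / 2) {s b₁ : ℝ} (hs : s ≤ b₁)
    (hs' : b₁ - s ≤ π / 3) {n : ℕ} {y : ℂ} {a b l : ℝ} (h : GG c n y a b l) (ha : a ≤ s)
    (hb : b₁ ≤ b) : b₁ - s ≤ l + dt (un (b₁ - π / 2) - un (s - π / 2)) y := by
  rcases hs.eq_or_lt with he | hlt
  · rw [he]
    simp only [sub_self, dt_zero, add_zero]
    exact h.nonneg
  have key := closing hc0 hc (a₁ := s) (t₁ := s) (t₂ := b₁) (b₁ := b₁) (v₁ := 0) (v₂ := 0)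
    (p₁ := 0) (p₂ := 0) le_rfl hs le_rfl hlt (fun x _ => by rw [dt_zero])
    (fun x _ => by rw [dt_zero])
    (fun t ht => by
      rw [zero_add]
      exact chord_le (abs_le.2 ⟨by linarith [ht.1, Real.pi_pos], by linarith [ht.2]⟩))
    (fun t ht => by
      rw [add_zero]
      exact chord_le (abs_le.2 ⟨by linarith [ht.2, Real.pi_pos], by linarith [ht.1]⟩))
    hs' (by
      rw [zero_add, add_zero]
      exact chord_le (abs_le.2 ⟨by linarith [Real.pi_pos], by linarith⟩)) h ha hb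
  rw [zero_add, add_zero, zero_add, add_zero] at key
  exact key

/-- the jump `2 sin A` at the near end, alone -/
theorem near_cert0 {c : ℝ} (hc0 : 0 < c) (hc : c < π / 2) {A a₁ : ℝ} (hA0 : 0 ≤ A)
    (hA : A ≤ π / 6) {n : ℕ} {y : ℂ} {a b l : ℝ} (h : GG c n y a b l) (ha : a ≤ a₁)
    (hb : a₁ < b) : 2 * Real.sin A ≤ l + dt (((2 * Real.sin A : ℝ) : ℂ) * un a₁) y := by
  have hpi := Real.pi_pos
  have hs0 : 0 ≤ Real.sin A := Real.sin_nonneg_of_nonneg_of_le_pi hA0 (by linarith)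
  have hs1 : Real.sin A ≤ 1 / 2 := by
    rw [← Real.sin_pi_div_six]
    exact Real.sin_le_sin_of_le_of_le_pi_div_two (by linarith) (by linarith) hA
  have hn : ‖((2 * Real.sin A : ℝ) : ℂ) * un a₁‖ ≤ 1 := by
    rw [norm_smul_un, abs_of_nonneg (by linarith)]; linarith
  have key := closing hc0 hc (a₁ := a₁) (t₁ := a₁) (t₂ := a₁) (b₁ := b) (v₁ := 2 * Real.sin A)
    (v₂ := 0) (p₁ := ((2 * Real.sin A : ℝ) : ℂ) * un a₁) (p₂ := 0) le_rfl le_rfl hb.le hb
    (fun x hx => by
      have h1 := cov_zero hc0 hc hx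
      rw [dt_smul]
      nlinarith)
    (fun x _ => by rw [dt_zero])
    (fun s hs => by
      have : s = a₁ := le_antisymm hs.2 hs.1
      rw [this, sub_self, add_zero]; exact hn)
    (fun s hs => by
      have : s = a₁ := le_antisymm hs.2 hs.1
      rw [this, sub_self, zero_add, norm_zero]; exact zero_le_one)
    (by linarith)
    (by rw [sub_self, add_zero, add_zero]; exact hn)
    h ha le_rfl
  rw [sub_self, sub_self, add_zero, add_zero, add_zero, add_zero] at key
  exact key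

theorem near_eq (A a₁ : ℝ) : ((2 * Real.sin A : ℝ) : ℂ) * un a₁ - un (a₁ + A - π / 2) =
    un (a₁ + π / 2 - A) := by
  have h1 := un_sub (a₁ - π / 2 - A) (a₁ + A - π / 2)
  rw [show (a₁ + A - π / 2 - (a₁ - π / 2 - A)) / 2 = A by ring,
    show (a₁ - π / 2 - A + (a₁ + A - π / 2)) / 2 + π / 2 = a₁ by ring] at h1
  have h2 := un_add_pi (a₁ - π / 2 - A)
  rw [show a₁ - π / 2 - A + π = a₁ + π / 2 - A by ring] at h2
  rw [← h1, h2]
  ring

/-- the jump `2 sin A` at the near end, then the unit arc up to `s` -/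
theorem near_cert1 {c : ℝ} (hc0 : 0 < c) (hc : c < π / 2) {A a₁ s : ℝ} (hA0 : 0 ≤ A)
    (hs1 : a₁ + A ≤ s) (hs2 : s - a₁ + A ≤ π / 3) (hs3 : a₁ < s) {n : ℕ} {y : ℂ} {a b l : ℝ}
    (h : GG c n y a b l) (ha : a ≤ a₁) (hb : s ≤ b) :
    2 * Real.sin A + (s - a₁ - A) ≤
      l + dt (((2 * Real.sin A : ℝ) : ℂ) * un a₁ + (un (s - π / 2) - un (a₁ + A - π / 2))) y := by
  have hpi := Real.pi_pos
  have hA : A ≤ π / 3 := by linarith
  have hs0 : 0 ≤ Real.sin A := Real.sin_nonneg_of_nonneg_of_le_pi hA0 (by linarith)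
  have hn : ∀ t ∈ Icc (a₁ + A) s, ‖((2 * Real.sin A : ℝ) : ℂ) * un a₁ +
      (un (t - π / 2) - un (a₁ + A - π / 2))‖ ≤ 1 := by
    intro t ht
    have h2 := un_add_pi (t - π / 2)
    rw [show t - π / 2 + π = t + π / 2 by ring] at h2
    have e : ((2 * Real.sin A : ℝ) : ℂ) * un a₁ + (un (t - π / 2) - un (a₁ + A - π / 2)) =
        un (a₁ + π / 2 - A) - un (t + π / 2) := by
      rw [h2, ← near_eq]; ring
    rw [e]
    refine chord_le (abs_le.2 ⟨?_, ?_⟩)
    · linarith [ht.2]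
    · linarith [ht.1]
  have key := closing hc0 hc (a₁ := a₁) (t₁ := a₁ + A) (t₂ := s) (b₁ := s) (v₁ := 2 * Real.sin A)
    (v₂ := 0) (p₁ := ((2 * Real.sin A : ℝ) : ℂ) * un a₁) (p₂ := 0) (by linarith) hs1 le_rfl hs3
    (fun x hx => by
      have h1 := cov_zero hc0 hc hx
      rw [dt_smul]
      nlinarith)
    (fun x _ => by rw [dt_zero])
    hn
    (fun t ht => by
      rw [add_zero]
      exact chord_le (abs_le.2 ⟨by linarith [ht.2, Real.pi_pos], by linarith [ht.1]⟩))
    (by linarith)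
    (by rw [add_zero]; exact hn s ⟨hs1, le_rfl⟩)
    h ha hb
  rw [add_zero, add_zero] at key
  linarith

end Pool.Agent.W_8c5d11_f73
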