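import Pool.Agent.W_8c5d11_f73.Def

/-!
MP_8c5d11_gt: certificates for interval trees that do not depend on the shape of the tree.
-/

open Set
open scoped Real

namespace Pool.Agent.W_8c5d11_f73

open Pool.Agent.W_8c5d11_v22

theorem dt_le (u v : ℂ) : dt u v ≤ ‖u‖ * ‖v‖ := by
  have h1 : dt u v = ((starRingEnd ℂ) u * v).re := by
    simp [dt]
  rw [h1]
  refine (Complex.re_le_norm _).trans ?_
  rw [norm_mul, Complex.norm_conj]

theorem norm_un (t : ℝ) : ‖un t‖ = 1 := by
  have h : ‖un t‖ ^ 2 = 1 := by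
    rw [← dt_self]
    simp only [dt, un]
    nlinarith [Real.sin_sq_add_cos_sq t]
  have h0 := norm_nonneg (un t)
  nlinarith

theorem Gd.nonneg {R r : ℝ} {n : ℕ} {y : ℂ} {a b l : ℝ} (h : Gd R r n y a b l) : 0 ≤ l := by
  induction h with
  | leaf => exact le_rfl
  | mono _ ih => exact ih
  | ext _ ih => exact add_nonneg ih dist_nonneg
  | split _ _ _ _ ih1 ih2 => exact add_nonneg ih1 ih2

theorem Gd.lt {R r : ℝ} {n : ℕ} {y : ℂ} {a b l : ℝ} (h : Gd R r n y a b l) : a < b := by
  induction h with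
  | leaf h _ => exact h
  | mono _ ih => exact ih
  | ext _ ih => exact ih
  | split h1 h2 _ _ _ _ => exact h1.trans h2

theorem pt_conj (R t : ℝ) : (starRingEnd ℂ) (pt R t) = pt R (-t) := by
  apply Complex.ext
  · rw [Complex.conj_re, pt_re, pt_re, Real.cos_neg]
  · rw [Complex.conj_im, pt_im, pt_im, Real.sin_neg]; ring

theorem Gd.conj {R r : ℝ} {n : ℕ} {y : ℂ} {a b l : ℝ} (h : Gd R r n y a b l) :
    Gd R r n ((starRingEnd ℂ) y) (-b) (-a) l := by
  induction h with
  | leaf h hc =>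
    refine Gd.leaf (by linarith) fun t ht => ?_
    have h1 := hc (-t) ⟨by linarith [ht.2], by linarith [ht.1]⟩
    rw [← Complex.dist_conj_conj, pt_conj, neg_neg] at h1
    exact h1
  | mono _ ih => exact Gd.mono ih
  | @ext n y z a b l _ ih =>
    have h1 := Gd.ext (y := (starRingEnd ℂ) y) ih
    rw [Complex.dist_conj_conj] at h1
    exact h1
  | @split n y a s b l m h1 h2 _ _ ih1 ih2 =>
    have h3 := Gd.split (by linarith : -b < -s) (by linarith : -s < -a) ih2 ih1
    rwa [add_comm m l] at h3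

theorem dt_conj (θ : ℝ) (y : ℂ) : dt (un (-θ)) ((starRingEnd ℂ) y) = dt (un θ) y := by
  simp only [dt, un, Complex.conj_re, Complex.conj_im, Real.cos_neg, Real.sin_neg]
  ring

theorem phi_zero (c : ℝ) : phi c 0 = 1 := by simp [phi]

theorem phi_neg (c ψ : ℝ) : phi c (-ψ) = phi c ψ := by simp [phi]

theorem cov {c : ℝ} (hc0 : 0 < c) (hc : c < π / 2) {t θ : ℝ} {x : ℂ}
    (h : dist (pt (1 / Real.sin c) t) x ≤ 1 / Real.sin c - 1) : phi c (θ - t) ≤ dt (un θ) x := by
  have hs : 0 < Real.sin c := Real.sin_pos_of_pos_of_lt_pi hc0 (by linarith [Real.pi_pos])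
  have h1 := dt_le (un θ) (pt (1 / Real.sin c) t - x)
  rw [norm_un, one_mul, ← dist_eq_norm] at h1
  have h2 : dt (un θ) (pt (1 / Real.sin c) t - x) =
      1 / Real.sin c * Real.cos (θ - t) - dt (un θ) x := by
    rw [Real.cos_sub]
    simp only [dt, un, Complex.sub_re, Complex.sub_im, pt_re, pt_im]
    ring
  have h3 : phi c (θ - t) = 1 / Real.sin c * Real.cos (θ - t) - (1 / Real.sin c - 1) := by
    unfold phi
    field_simp
    ring
  rw [h3]
  linarith

theorem U_bound {R r : ℝ} {g : ℝ → ℂ} {V : ℝ → ℝ}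
    (h1 : ∀ s t, s < t → ‖g t - g s‖ ≤ 1)
    (h2 : ∀ s t x, s < t → (∀ u ∈ Icc s t, dist (pt R u) x ≤ r) → V t - V s ≤ dt (g t - g s) x)
    {n : ℕ} {y : ℂ} {a b l : ℝ} (h : Gd R r n y a b l) : V b - V a ≤ l + dt (g b - g a) y := by
  induction h with
  | leaf h hc => rw [zero_add]; exact h2 _ _ _ h hc
  | mono _ ih => exact ih
  | @ext n y z a b l h ih =>
    have h3 := h1 _ _ h.lt
    have h4 := dt_le (g b - g a) (z - y)
    have h5 : dt (g b - g a) z = dt (g b - g a) y + dt (g b - g a) (z - y) := by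
      simp only [dt, Complex.sub_re, Complex.sub_im]; ring
    have h6 : ‖g b - g a‖ * ‖z - y‖ ≤ dist y z := by
      rw [dist_comm, dist_eq_norm]
      exact mul_le_of_le_one_left (norm_nonneg _) h3
    linarith
  | @split n y a s b l m h3 h4 _ _ ih1 ih2 =>
    have h5 : dt (g b - g a) y = dt (g s - g a) y + dt (g b - g s) y := by
      simp only [dt, Complex.sub_re, Complex.sub_im]; ring
    linarith

theorem arc_leaf {c : ℝ} (hc0 : 0 < c) (hc : c < π / 2) {s t : ℝ} {x : ℂ} (hst : s ≤ t)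
    (h : ∀ u ∈ Icc s t, dist (pt (1 / Real.sin c) u) x ≤ 1 / Real.sin c - 1) :
    t - s ≤ dt (un (t - π / 2) - un (s - π / 2)) x := by
  set F : ℝ → ℝ := fun u => x.re * Real.sin u - x.im * Real.cos u - u with hF
  have hd : ∀ u, HasDerivAt F (x.re * Real.cos u + x.im * Real.sin u - 1) u := by
    intro u
    have e1 := (Real.hasDerivAt_sin u).const_mul x.re
    have e2 := (Real.hasDerivAt_cos u).const_mul x.im
    have e3 : HasDerivAt F (x.re * Real.cos u - x.im * (-Real.sin u) - 1) u :=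
      (e1.sub e2).sub (hasDerivAt_id u)
    have e4 : x.re * Real.cos u - x.im * (-Real.sin u) - 1 =
        x.re * Real.cos u + x.im * Real.sin u - 1 := by ring
    rwa [e4] at e3
  have hmono : MonotoneOn F (Icc s t) := by
    refine monotoneOn_of_deriv_nonneg (convex_Icc s t)
      (fun u _ => (hd u).continuousAt.continuousWithinAt)
      (fun u _ => (hd u).differentiableAt.differentiableWithinAt) fun u hu => ?_
    rw [(hd u).deriv]
    rw [interior_Icc] at hu
    have h1 := cov hc0 hc (θ := u) (h u ⟨hu.1.le, hu.2.le⟩)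
    rw [sub_self, phi_zero] at h1
    simp only [dt, un] at h1
    linarith
  have h1 := hmono (left_mem_Icc.2 hst) (right_mem_Icc.2 hst) hst
  simp only [hF] at h1
  simp only [dt, un, Complex.sub_re, Complex.sub_im, Real.cos_sub_pi_div_two,
    Real.sin_sub_pi_div_two]
  linarith

theorem chord_le {α β : ℝ} (h : |α - β| ≤ π / 3) : ‖un α - un β‖ ≤ 1 := by
  have h1 : ‖un α - un β‖ ^ 2 = 2 - 2 * Real.cos (α - β) := by
    rw [← dt_self, Real.cos_sub]
    simp only [dt, un, Complex.sub_re, Complex.sub_im]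
    nlinarith [Real.sin_sq_add_cos_sq α, Real.sin_sq_add_cos_sq β]
  have h2 : (1 : ℝ) / 2 ≤ Real.cos (α - β) := by
    rw [← Real.cos_pi_div_three, ← Real.cos_abs (α - β)]
    exact Real.cos_le_cos_of_nonneg_of_le_pi (abs_nonneg _) (by linarith [Real.pi_pos]) h
  have h3 : ‖un α - un β‖ ^ 2 ≤ 1 := by linarith
  nlinarith [norm_nonneg (un α - un β)]

/-- the general curve: a jump `p₁` at `a₁`, a unit arc for the directions `[t₁, t₂]`, a jump `p₂` at
`b₁` -/
theorem closing {c : ℝ} (hc0 : 0 < c) (hc : c < π / 2) {a₁ t₁ t₂ b₁ v₁ v₂ : ℝ} {p₁ p₂ : ℂ}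
    (h1 : a₁ ≤ t₁) (h2 : t₁ ≤ t₂) (h3 : t₂ ≤ b₁) (h4 : a₁ < b₁)
    (hp1 : ∀ x, dist (pt (1 / Real.sin c) a₁) x ≤ 1 / Real.sin c - 1 → v₁ ≤ dt p₁ x)
    (hp2 : ∀ x, dist (pt (1 / Real.sin c) b₁) x ≤ 1 / Real.sin c - 1 → v₂ ≤ dt p₂ x)
    (n1 : ∀ s ∈ Icc t₁ t₂, ‖p₁ + (un (s - π / 2) - un (t₁ - π / 2))‖ ≤ 1)
    (n2 : ∀ s ∈ Icc t₁ t₂, ‖un (t₂ - π / 2) - un (s - π / 2) + p₂‖ ≤ 1)
    (n3 : t₂ - t₁ ≤ π / 3)
    (n4 : ‖p₁ + (un (t₂ - π / 2) - un (t₁ - π / 2)) + p₂‖ ≤ 1)
    {n : ℕ} {y : ℂ} {a b l : ℝ} (h : GG c n y a b l) (ha : a ≤ a₁) (hb : b₁ ≤ b) :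
    v₁ + (t₂ - t₁) + v₂ ≤ l + dt (p₁ + (un (t₂ - π / 2) - un (t₁ - π / 2)) + p₂) y := by
  set cl : ℝ → ℝ := fun s => max t₁ (min s t₂) with hcl
  have cl1 : ∀ s, s ≤ a₁ → cl s = t₁ := by
    intro s hs
    exact max_eq_left ((min_le_left _ _).trans (hs.trans h1))
  have cl2 : ∀ s, b₁ ≤ s → cl s = t₂ := by
    intro s hs
    simp only [hcl]
    rw [min_eq_right (h3.trans hs), max_eq_right h2]
  have clm : ∀ s, cl s ∈ Icc t₁ t₂ := fun s => ⟨le_max_left _ _, max_le h2 (min_le_right _ _)⟩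
  have clmono : Monotone cl := fun s t hst => max_le_max le_rfl (min_le_min hst le_rfl)
  set g : ℝ → ℂ := fun s => (if s ≤ a₁ then 0 else p₁) +
    (un (cl s - π / 2) - un (t₁ - π / 2)) + (if s < b₁ then 0 else p₂) with hg
  set V : ℝ → ℝ := fun s => (if s ≤ a₁ then 0 else v₁) + (cl s - t₁) +
    (if s < b₁ then 0 else v₂) with hV
  -- arcs
  have harc : ∀ s t x, s < t →
      (∀ u ∈ Icc s t, dist (pt (1 / Real.sin c) u) x ≤ 1 / Real.sin c - 1) →
      cl t - cl s ≤ dt (un (cl t - π / 2) - un (cl s - π / 2)) x := by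
    intro s t x hst hx
    rcases (clmono hst.le).eq_or_lt with he | hlt
    · rw [he]; simp [dt]
    · refine arc_leaf hc0 hc hlt.le fun u hu => hx u ⟨?_, ?_⟩
      · -- s ≤ cl s since cl s < cl t ≤ t₂
        have h5 : cl s < t₂ := hlt.trans_le (clm t).2
        have h6 : min s t₂ < t₂ := lt_of_le_of_lt (le_max_right _ _) h5
        have h7 : s < t₂ := by
          by_contra hcon
          rw [min_eq_right (not_lt.1 hcon)] at h6
          exact lt_irrefl _ h6
        have h8 : s ≤ cl s := by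
          simp only [hcl]
          rw [min_eq_left h7.le]
          exact le_max_right _ _
        exact h8.trans hu.1
      · have h5 : t₁ < cl t := (clm s).1.trans_lt hlt
        have h6 : cl t ≤ t := by
          simp only [hcl] at h5 ⊢
          rcases lt_max_iff.1 h5 with h | h
          · exact absurd h (lt_irrefl _)
          · rw [max_eq_right h.le]; exact min_le_left _ _
        exact hu.2.trans h6
  have hzero : ∀ s t : ℝ, dt (0 : ℂ) (s + t * Complex.I) = 0 := by intro s t; simp [dt]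
  have key1 : ∀ s t, s < t → ‖g t - g s‖ ≤ 1 := by
    intro s t hst
    by_cases ha1 : s ≤ a₁
    · by_cases ha2 : t ≤ a₁
      · have e : g t - g s = 0 := by
          simp only [hg, if_pos ha1, if_pos ha2, if_pos (ha1.trans_lt h4), if_pos (ha2.trans_lt h4),
            cl1 _ ha1, cl1 _ ha2, sub_self]
        rw [e, norm_zero]; exact zero_le_one
      · by_cases hb2 : t < b₁
        · have e : g t - g s = p₁ + (un (cl t - π / 2) - un (t₁ - π / 2)) := by
            simp only [hg, if_pos ha1, if_neg ha2, if_pos (ha1.trans_lt h4), if_pos hb2,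
              cl1 _ ha1]
            ring
          rw [e]; exact n1 _ (clm t)
        · have e : g t - g s = p₁ + (un (t₂ - π / 2) - un (t₁ - π / 2)) + p₂ := by
            simp only [hg, if_pos ha1, if_neg ha2, if_pos (ha1.trans_lt h4), if_neg hb2,
              cl1 _ ha1, cl2 _ (not_lt.1 hb2)]
            ring
          rw [e]; exact n4
    · have ha2 : ¬ t ≤ a₁ := fun h => ha1 (hst.le.trans h)
      by_cases hb1 : s < b₁
      · by_cases hb2 : t < b₁
        · have e : g t - g s = un (cl t - π / 2) - un (cl s - π / 2) := by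
            simp only [hg, if_neg ha1, if_neg ha2, if_pos hb1, if_pos hb2]
            ring
          rw [e]
          refine chord_le (abs_le.2 ⟨?_, ?_⟩)
          · linarith [(clm t).1, (clm t).2, (clm s).1, (clm s).2]
          · linarith [(clm t).1, (clm t).2, (clm s).1, (clm s).2]
        · have e : g t - g s = un (t₂ - π / 2) - un (cl s - π / 2) + p₂ := by
            simp only [hg, if_neg ha1, if_neg ha2, if_pos hb1, if_neg hb2, cl2 _ (not_lt.1 hb2)]
            ring
          rw [e]; exact n2 _ (clm s)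
      · have hb2 : ¬ t < b₁ := fun h => hb1 (hst.trans h)
        have e : g t - g s = 0 := by
          simp only [hg, if_neg ha1, if_neg ha2, if_neg hb1, if_neg hb2, cl2 _ (not_lt.1 hb2),
            cl2 _ (not_lt.1 hb1)]
          ring
        rw [e, norm_zero]; exact zero_le_one
  have key2 : ∀ s t x, s < t →
      (∀ u ∈ Icc s t, dist (pt (1 / Real.sin c) u) x ≤ 1 / Real.sin c - 1) →
      V t - V s ≤ dt (g t - g s) x := by
    intro s t x hst hx
    have h5 := harc s t x hst hx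
    have e0 : dt (g t - g s) x = dt ((if t ≤ a₁ then 0 else p₁) - (if s ≤ a₁ then 0 else p₁)) x +
        dt (un (cl t - π / 2) - un (cl s - π / 2)) x +
        dt ((if t < b₁ then 0 else p₂) - (if s < b₁ then 0 else p₂)) x := by
      simp only [hg, dt, Complex.sub_re, Complex.sub_im, Complex.add_re, Complex.add_im]
      ring
    have e1 : (if t ≤ a₁ then 0 else v₁) - (if s ≤ a₁ then 0 else v₁) ≤
        dt ((if t ≤ a₁ then 0 else p₁) - (if s ≤ a₁ then 0 else p₁)) x := by
      by_cases ha1 : s ≤ a₁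
      · by_cases ha2 : t ≤ a₁
        · simp [if_pos ha1, if_pos ha2, dt]
        · rw [if_pos ha1, if_neg ha2, if_pos ha1, if_neg ha2, sub_zero, sub_zero]
          exact hp1 x (hx a₁ ⟨ha1, (not_le.1 ha2).le⟩)
      · have ha2 : ¬ t ≤ a₁ := fun h => ha1 (hst.le.trans h)
        simp [if_neg ha1, if_neg ha2, dt]
    have e2 : (if t < b₁ then 0 else v₂) - (if s < b₁ then 0 else v₂) ≤
        dt ((if t < b₁ then 0 else p₂) - (if s < b₁ then 0 else p₂)) x := by
      by_cases hb1 : s < b₁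
      · by_cases hb2 : t < b₁
        · simp [if_pos hb1, if_pos hb2, dt]
        · rw [if_pos hb1, if_neg hb2, if_pos hb1, if_neg hb2, sub_zero, sub_zero]
          exact hp2 x (hx b₁ ⟨hb1.le, not_lt.1 hb2⟩)
      · have hb2 : ¬ t < b₁ := fun h => hb1 (hst.trans h)
        simp [if_neg hb1, if_neg hb2, dt]
    rw [e0]
    simp only [hV]
    linarith
  have h5 := U_bound key1 key2 h
  have hab := h.lt
  have e1 : g b - g a = p₁ + (un (t₂ - π / 2) - un (t₁ - π / 2)) + p₂ := by
    simp only [hg, if_pos ha, if_pos (ha.trans_lt h4), if_neg (not_lt.2 hb),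
      if_neg (not_le.2 (h4.trans_le hb)), cl1 _ ha, cl2 _ hb]
    ring
  have e2 : V b - V a = v₁ + (t₂ - t₁) + v₂ := by
    simp only [hV, if_pos ha, if_pos (ha.trans_lt h4), if_neg (not_lt.2 hb),
      if_neg (not_le.2 (h4.trans_le hb)), cl1 _ ha, cl2 _ hb]
    ring
  rw [← e1, ← e2]
  exact h5

end Pool.Agent.W_8c5d11_f73
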