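import Pool.Agent.W_8c5d11_v22.Bound

/-!
MP_8c5d11_gt: the horseshoe theorem for all continua. Definitions.

Unit scale: the inner circle has radius `R - r = 1`, and `sin c = 1 / R`. A derivation
`Gd R r n y a b l` says: there is a tree of length `l` with root `y` which covers the directions
`[a, b]`, built by points, edges and splittings of the interval.
-/

open Set
open scoped Real

namespace Pool.Agent.W_8c5d11_f73

open Pool.Agent.W_8c5d11_v22

/-- the unit vector of direction `t` -/
noncomputable def un (t : ℝ) : ℂ := ⟨Real.cos t, Real.sin t⟩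

/-- rooted interval trees, with the height `n` -/
inductive Gd (R r : ℝ) : ℕ → ℂ → ℝ → ℝ → ℝ → Prop
  | leaf {y : ℂ} {a b : ℝ} : a < b → (∀ t ∈ Icc a b, dist (pt R t) y ≤ r) → Gd R r 0 y a b 0
  | mono {n : ℕ} {y : ℂ} {a b l : ℝ} : Gd R r n y a b l → Gd R r (n + 1) y a b l
  | ext {n : ℕ} {y z : ℂ} {a b l : ℝ} : Gd R r n z a b l → Gd R r (n + 1) y a b (l + dist y z)
  | split {n : ℕ} {y : ℂ} {a s b l m : ℝ} : a < s → s < b → Gd R r n y a s l → Gd R r n y s b m →
      Gd R r (n + 1) y a b (l + m)

/-- value of a unit vector at angle `ψ` from a covered direction -/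
noncomputable def phi (c ψ : ℝ) : ℝ := 1 - (1 - Real.cos ψ) / Real.sin c

/-- half of the length of the horseshoe in the unit scale -/
noncomputable def Lam (c : ℝ) : ℝ := phi c c + c + π / 2

/-- interval trees in the unit scale -/
abbrev GG (c : ℝ) : ℕ → ℂ → ℝ → ℝ → ℝ → Prop := Gd (1 / Real.sin c) (1 / Real.sin c - 1)

/-- numerical bound for the large side of a middle split -/
noncomputable def NN (c τ : ℝ) : ℝ :=
  if c ≤ π / 4 then 1.086 + (τ - Real.sin τ) + (1 - Real.cos τ)
  else if c ≤ π / 3 then 1.15 + 2 * (τ - Real.sin τ)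
  else 1.23 + 2 * (τ - Real.sin τ)

/-- `v` is a certified value for a unit vector with angles `q`, `r` to the ends of the interval -/
def Cert (c q r v : ℝ) : Prop :=
  ∀ (n : ℕ) (y : ℂ) (θ a b l : ℝ), a ≤ θ - q → θ + r ≤ b → GG c n y a b l → v ≤ l + dt (un θ) y

end Pool.Agent.W_8c5d11_f73
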