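import Pool.Agent.W_8c5d11_f73.Inst
import Pool.Agent.W_8c5d11_h73.Hs11

/-!
MP_8c5d11_gt: from the lower bound and the strict inequality for sets with a dip to the
characterisation of the minimizers.
-/

open Set Metric MeasureTheory
open scoped Real ENNReal

namespace Pool.Agent.W_8c5d11_f73

open Pool.Agent.W_8c5d11_h73

/-- The competitors for `M`: compact connected sets whose closed `r`-neighbourhood contains `M`. -/
def Competitor (M : Set ℂ) (r : ℝ) (S : Set ℂ) : Prop :=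
  IsCompact S ∧ IsConnected S ∧ M ⊆ cthickening r S

/-- The `r`-minimizers for `M`: competitors of least length. -/
def IsMinimizer (M : Set ℂ) (r : ℝ) (S : Set ℂ) : Prop :=
  Competitor M r S ∧ ∀ T, Competitor M r T → μH[1] S ≤ μH[1] T

theorem length_rot {R r : ℝ} (hr : 0 < r) (hR : r < R) (τ : ℝ) :
    μH[1] (rot τ '' horseshoe R r) = ENNReal.ofReal (hlen R r) := (adm_rot hr hR τ).2

theorem minimizer_iff {R r : ℝ} (hr : 0 < r) (hR : r < R)
    (hst : ∀ S : Set ℂ, IsCompact S → IsConnected S → sphere 0 R ⊆ cthickening r S →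
      ∀ z ∈ S, ‖z‖ < R - r → ENNReal.ofReal (hlen R r) < μH[1] S)
    {M : Set ℂ} (h1 : sphere 0 R ⊆ M) (h2 : ∀ τ : ℝ, M ⊆ cthickening r (rot τ '' horseshoe R r))
    (S : Set ℂ) : IsMinimizer M r S ↔ ∃ τ : ℝ, S = rot τ '' horseshoe R r := by
  have hcomp : ∀ τ : ℝ, Competitor M r (rot τ '' horseshoe R r) := fun τ =>
    ⟨(adm_rot hr hR τ).1.1, (adm_rot hr hR τ).1.2.1, h2 τ⟩
  constructor
  · rintro ⟨⟨hS, hc, hcov⟩, hmin⟩
    have hcov' := h1.trans hcov
    have hle : μH[1] S ≤ ENNReal.ofReal (hlen R r) := by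
      rw [← length_rot hr hR 0]
      exact hmin _ (hcomp 0)
    have hdip : ∀ z ∈ S, R - r ≤ ‖z‖ := by
      intro z hz
      by_contra hcon
      exact absurd (hst S hS hc hcov' z hz (not_le.1 hcon)) (not_lt.2 hle)
    have hdiff : S \ ball 0 (R - r) = S := by
      ext z
      refine ⟨fun h => h.1, fun h => ⟨h, ?_⟩⟩
      rw [mem_ball_zero_iff, not_lt]
      exact hdip z h
    refine unique hr hR ⟨hS, hc, ?_, hcov'⟩ (le_antisymm hle (lower_all hr hR hS hc hcov'))
    rw [hdiff]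
    exact hc.isPreconnected
  · rintro ⟨τ, rfl⟩
    refine ⟨hcomp τ, ?_⟩
    rintro T ⟨hT, hTc, hTcov⟩
    rw [length_rot hr hR]
    exact lower_all hr hR hT hTc (h1.trans hTcov)

/-- the circle -/
theorem minimizer_circle {R r : ℝ} (hr : 0 < r) (hR : r < R)
    (hst : ∀ S : Set ℂ, IsCompact S → IsConnected S → sphere 0 R ⊆ cthickening r S →
      ∀ z ∈ S, ‖z‖ < R - r → ENNReal.ofReal (hlen R r) < μH[1] S) (S : Set ℂ) :
    IsMinimizer (sphere 0 R) r S ↔ ∃ τ : ℝ, S = rot τ '' horseshoe R r :=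
  minimizer_iff hr hR hst subset_rfl (fun τ => (adm_rot hr hR τ).1.2.2.2) S

/-- the disc -/
theorem minimizer_disc {R r : ℝ} (hr : 0 < r) (hR : r < R) (h2 : R ≤ 2 * r)
    (hst : ∀ S : Set ℂ, IsCompact S → IsConnected S → sphere 0 R ⊆ cthickening r S →
      ∀ z ∈ S, ‖z‖ < R - r → ENNReal.ofReal (hlen R r) < μH[1] S) (S : Set ℂ) :
    IsMinimizer (closedBall 0 R) r S ↔ ∃ τ : ℝ, S = rot τ '' horseshoe R r :=
  minimizer_iff hr hR hst sphere_subset_closedBall
    (fun τ _ hx => rot_cov hr hR τ (mem_closedBall_zero_iff.1 hx) (Or.inr h2)) S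

end Pool.Agent.W_8c5d11_f73
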