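import Pool.Agent.W_8c5d11_f73.Top
import Pool.Agent.W_8c5d11_v22.Lim

/-!
MP_8c5d11_gt: **the horseshoe bound for all continua and all `0 < r < R`.**
-/

open Set Metric MeasureTheory Filter Topology
open scoped Real ENNReal NNReal

namespace Pool.Agent.W_8c5d11_f73

open Pool.Agent.W_8c5d11_v22
open Pool.Agent.W_8c5d11_h73 (hlen)

theorem Gd.up {R r : ℝ} {n m : ℕ} {y : ℂ} {a b l : ℝ} (h : Gd R r n y a b l) (hnm : n ≤ m) :
    Gd R r m y a b l := by
  induction hnm with
  | refl => exact h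
  | step _ ih => exact Gd.mono ih

theorem Gd.base {R r : ℝ} (hR : 0 < R) (y : ℂ) {a b : ℝ} (hab : a < b)
    (h : b - a ≤ r / R) : Gd R r 1 y a b (0 + dist y (pt R a)) := by
  refine Gd.ext (Gd.leaf hab fun t ht => ?_)
  refine (dist_pt_le hR.le t a).trans ?_
  rw [abs_of_nonneg (by linarith [ht.1])]
  have h1 : t - a ≤ r / R := by linarith [ht.2]
  calc R * (t - a) ≤ R * (r / R) := mul_le_mul_of_nonneg_left h1 hR.le
    _ = r := by field_simp

theorem Gd.exists_aux {R r : ℝ} (hR : 0 < R) (hr : 0 < r) (y : ℂ) (k : ℕ) : ∀ a b : ℝ, a < b →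
    b - a ≤ (k + 1) * (r / R) → ∃ n l, Gd R r n y a b l := by
  have hd : 0 < r / R := div_pos hr hR
  induction k with
  | zero =>
    intro a b hab h
    exact ⟨1, _, Gd.base hR y hab (by simpa using h)⟩
  | succ k ih =>
    intro a b hab h
    by_cases h1 : b - a ≤ (k + 1) * (r / R)
    · exact ih a b hab h1
    push_cast at h
    have hk : (0 : ℝ) ≤ k := Nat.cast_nonneg k
    have h2 : a < b - r / R := by nlinarith
    obtain ⟨n, l, G1⟩ := ih a (b - r / R) h2 (by linarith)
    have G2 := Gd.base (r := r) hR y (a := b - r / R) (b := b) (by linarith) (by linarith)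
    exact ⟨_, _, Gd.split h2 (by linarith) (G1.up (le_max_left n 1)) (G2.up (le_max_right n 1))⟩

theorem Gd.exists {R r : ℝ} (hR : 0 < R) (hr : 0 < r) (y : ℂ) {a b : ℝ} (hab : a < b) :
    ∃ n l, Gd R r n y a b l := by
  have hd : 0 < r / R := div_pos hr hR
  refine Gd.exists_aux hR hr y ⌈(b - a) / (r / R)⌉₊ a b hab ?_
  have h1 := Nat.le_ceil ((b - a) / (r / R))
  rw [div_le_iff₀ hd] at h1
  linarith

/-- lengths of trees with root `y` for the directions of `[a, b]` -/
def lens (R r a b : ℝ) (y : ℂ) : Set ℝ := {l | ∃ n, Gd R r n y a b l}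

theorem lens_nonempty {R r : ℝ} (hR : 0 < R) (hr : 0 < r) (y : ℂ) {a b : ℝ} (hab : a < b) :
    (lens R r a b y).Nonempty := by
  obtain ⟨n, l, h⟩ := Gd.exists hR hr y hab
  exact ⟨l, n, h⟩

theorem lens_bdd (R r a b : ℝ) (y : ℂ) : BddBelow (lens R r a b y) :=
  ⟨0, fun _ ⟨_, h⟩ => h.nonneg⟩

theorem lens_shift (R r a b : ℝ) (y : ℂ) :
    lens R r (a + 2 * π) (b + 2 * π) y = lens R r a b y := by
  have key : ∀ a b : ℝ, lens R r a b y ⊆ lens R r (a + 2 * π) (b + 2 * π) y :=
    fun a b l ⟨n, h⟩ => ⟨n, h.shift⟩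
  refine Subset.antisymm ?_ (key a b)
  rintro l ⟨n, h⟩
  have h1 := h.conj.shift.conj
  rw [Complex.conj_conj] at h1
  refine ⟨n, ?_⟩
  convert h1 using 1 <;> ring

/-- **interval trees give a verification function** -/
theorem verif_Gd {R r H : ℝ} (hR : 0 < R) (hr : 0 < r)
    (htop : ∀ (n : ℕ) (y : ℂ) (a b d l₁ l₂ l₃ : ℝ), Gd R r n y a b l₁ → Gd R r n y b d l₂ →
      Gd R r n y d (a + 2 * π) l₃ → b - a ≤ π → d - b ≤ π → a + 2 * π - d ≤ π →
      H ≤ l₁ + l₂ + l₃) :
    Verif R r H fun a b y => sInf (lens R r a b y) where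
  lip a b y y' hab _ _ _ := by
    have h1 : sInf (lens R r a b y) - dist y y' ≤ sInf (lens R r a b y') := by
      refine le_csInf (lens_nonempty hR hr y' hab) ?_
      rintro l ⟨n, h⟩
      have := csInf_le (lens_bdd R r a b y) ⟨n + 1, h.ext (y := y)⟩
      linarith
    linarith
  per a b y := by simp only [lens_shift]
  leaf a b y hab _ _ hcov := csInf_le (lens_bdd R r a b y) ⟨0, Gd.leaf hab hcov⟩
  split a c b y hac hcb _ _ := by
    have h2 : sInf (lens R r a b y) - sInf (lens R r c b y) ≤ sInf (lens R r a c y) := by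
      refine le_csInf (lens_nonempty hR hr y hac) ?_
      rintro l ⟨n, h⟩
      have h3 : sInf (lens R r a b y) - l ≤ sInf (lens R r c b y) := by
        refine le_csInf (lens_nonempty hR hr y hcb) ?_
        rintro m ⟨k, h'⟩
        have := csInf_le (lens_bdd R r a b y) ⟨max n k + 1,
          Gd.split hac hcb (h.up (le_max_left n k)) (h'.up (le_max_right n k))⟩
        linarith
      linarith
    linarith
  top a b c y h1 h2 h3 h4 h5 h6 _ := by
    have k1 : H - sInf (lens R r b c y) - sInf (lens R r c (a + 2 * π) y) ≤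
        sInf (lens R r a b y) := by
      refine le_csInf (lens_nonempty hR hr y h1) ?_
      rintro l₁ ⟨n₁, g1⟩
      have k2 : H - l₁ - sInf (lens R r c (a + 2 * π) y) ≤ sInf (lens R r b c y) := by
        refine le_csInf (lens_nonempty hR hr y h2) ?_
        rintro l₂ ⟨n₂, g2⟩
        have k3 : H - l₁ - l₂ ≤ sInf (lens R r c (a + 2 * π) y) := by
          refine le_csInf (lens_nonempty hR hr y h3) ?_
          rintro l₃ ⟨n₃, g3⟩
          have := htop (max n₁ (max n₂ n₃)) y a b c l₁ l₂ l₃ (g1.up (le_max_left _ _))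
            (g2.up ((le_max_left _ _).trans (le_max_right _ _)))
            (g3.up ((le_max_right _ _).trans (le_max_right _ _))) (by linarith) (by linarith)
            (by linarith)
          linarith
        linarith
      linarith
    linarith

theorem Verif.scale {R r H : ℝ} {d : ℝ → ℝ → ℂ → ℝ} (h : Verif R r H d) {D : ℝ} (hD : 0 < D) :
    Verif (D * R) (D * r) (D * H) fun a b y => D * d a b ((D : ℂ)⁻¹ * y) := by
  have hD' : (D : ℂ) ≠ 0 := Complex.ofReal_ne_zero.2 hD.ne'
  have hn : ∀ y : ℂ, ‖y‖ = D * ‖(D : ℂ)⁻¹ * y‖ := by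
    intro y
    rw [norm_mul, norm_inv, Complex.norm_of_nonneg hD.le]
    field_simp
  have hle : ∀ y : ℂ, ‖y‖ ≤ D * R → ‖(D : ℂ)⁻¹ * y‖ ≤ R := by
    intro y hy
    rw [hn] at hy
    exact le_of_mul_le_mul_left hy hD
  have hdist : ∀ y y' : ℂ, D * dist ((D : ℂ)⁻¹ * y) ((D : ℂ)⁻¹ * y') = dist y y' := by
    intro y y'
    rw [dist_eq_norm, dist_eq_norm, ← mul_sub, ← hn]
  refine ⟨?_, ?_, ?_, ?_, ?_⟩
  · intro a b y y' h1 h2 h3 h4
    have h5 := mul_le_mul_of_nonneg_left (h.lip a b _ _ h1 h2 (hle y h3) (hle y' h4)) hD.le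
    rw [mul_add, hdist] at h5
    exact h5
  · intro a b y
    simp only [h.per]
  · intro a b y h1 h2 h3 h4
    have h5 := h.leaf a b ((D : ℂ)⁻¹ * y) h1 h2 (hle y h3) fun t ht => by
      have h6 := h4 t ht
      have e : pt R t = (D : ℂ)⁻¹ * pt (D * R) t := by
        rw [pt_scale, ← mul_assoc, inv_mul_cancel₀ hD', one_mul]
      rw [← hdist, ← e] at h6
      exact le_of_mul_le_mul_left h6 hD
    exact mul_nonpos_of_nonneg_of_nonpos hD.le h5
  · intro a c b y h1 h2 h3 h4
    rw [← mul_add]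
    exact mul_le_mul_of_nonneg_left (h.split a c b _ h1 h2 h3 (hle y h4)) hD.le
  · intro a b c y h1 h2 h3 h4 h5 h6 h7
    rw [← mul_add, ← mul_add]
    exact mul_le_mul_of_nonneg_left (h.top a b c _ h1 h2 h3 h4 h5 h6 (hle y h7)) hD.le

theorem Lam_eq {c : ℝ} (hc0 : 0 < c) (hc : c < π / 2) :
    2 * Lam c = π + 2 * (c + 1 - Real.tan (c / 2)) := by
  have hpi := Real.pi_pos
  have hs : 0 < Real.sin c := Real.sin_pos_of_pos_of_lt_pi hc0 (by linarith)
  have hcos : 0 < Real.cos (c / 2) := Real.cos_pos_of_mem_Ioo ⟨by linarith, by linarith⟩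
  have ht : Real.tan (c / 2) * Real.sin c = 1 - Real.cos c := by
    have e1 : Real.sin c = 2 * Real.sin (c / 2) * Real.cos (c / 2) := by
      rw [← Real.sin_two_mul]; congr 1; ring
    have e2 : Real.cos c = 1 - 2 * Real.sin (c / 2) ^ 2 := by
      have e3 := Real.cos_two_mul (c / 2)
      have e4 := Real.sin_sq_add_cos_sq (c / 2)
      rw [mul_div_cancel₀ c (two_ne_zero' ℝ)] at e3
      linarith
    rw [e1, e2, Real.tan_eq_sin_div_cos]
    field_simp
    ring
  unfold Lam phi
  rw [← ht, mul_div_cancel_right₀ _ hs.ne']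
  ring

/-- **The horseshoe bound.** For all `0 < r < R`, every continuum of the plane which comes within
distance `r` of each point of the circle of radius `R` has length at least the length of the
horseshoe. -/
theorem lower_all {R r : ℝ} (hr : 0 < r) (hR : r < R) {S : Set ℂ} (hc : IsCompact S)
    (hS : IsConnected S) (hcov : sphere 0 R ⊆ cthickening r S) :
    ENNReal.ofReal (hlen R r) ≤ μH[1] S := by
  have hR0 : 0 < R := hr.trans hR
  refine verif_limit (H := hlen R) hR0 hr.le (continuous_hlen R).continuousWithinAt ?_ hc hS hcov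
  have h3 : ∀ᶠ r' in 𝓝[>] r, r' < R := by
    filter_upwards [Ioo_mem_nhdsGT hR] with r' hr' using hr'.2
  filter_upwards [h3, self_mem_nhdsWithin] with r' h4 h5
  have h5' : r < r' := h5
  set D := R - r' with hD
  have hD0 : 0 < D := by linarith
  set b := Real.arcsin (D / R) with hb
  have hx0 : 0 < D / R := div_pos hD0 hR0
  have hx2 : D / R < 1 := by
    rw [div_lt_one hR0]; linarith
  have hb0 : 0 < b := Real.arcsin_pos.2 hx0
  have hb1 : b < π / 2 := Real.arcsin_lt_pi_div_two.2 hx2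
  have hs : Real.sin b = D / R := Real.sin_arcsin (by linarith) (by linarith)
  have e2 : D * (1 / Real.sin b) = R := by rw [hs]; field_simp
  have e3 : D * (1 / Real.sin b - 1) = r' := by
    have : D * (1 / Real.sin b - 1) = D * (1 / Real.sin b) - D := by ring
    rw [this, e2]; simp only [hD]; ring
  have e4 : D * (2 * Lam b) = hlen R r' := by
    rw [Lam_eq hb0 hb1, hlen_scale hD0 (by linarith) hb]
    congr 1; simp only [hD]; ring
  have hr1 : 0 < 1 / Real.sin b - 1 := by
    have h7 : 0 < D * (1 / Real.sin b - 1) := by rw [e3]; linarith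
    exact (mul_pos_iff_of_pos_left hD0).1 h7
  have hs0 : 0 < 1 / Real.sin b := by linarith
  have e1 := Verif.scale (verif_Gd hs0 hr1 (H := 2 * Lam b)
    fun n y a' b' d' l₁ l₂ l₃ g1 g2 g3 k1 k2 k3 => top_all hb0 hb1 g1 g2 g3 k1 k2 k3) hD0
  rw [e2, e3, e4] at e1
  exact ⟨_, e1⟩

end Pool.Agent.W_8c5d11_f73
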