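import Pool.Agent.W_8c5d11_f73.Mid

/-!
MP_8c5d11_gt: the bound for intervals with one exact end.
-/

open Set
open scoped Real

namespace Pool.Agent.W_8c5d11_f73

open Pool.Agent.W_8c5d11_v22

theorem dt_add (u v y : ℂ) : dt (u + v) y = dt u y + dt v y := by
  simp only [dt, Complex.add_re, Complex.add_im]; ring

/-- the bound for intervals whose far end is exact -/
def KP (c : ℝ) (n : ℕ) : Prop :=
  ∀ (y : ℂ) (θ a b l A : ℝ), 0 ≤ A → A ≤ π / 2 + c → a ≤ θ - π / 2 + A → θ + π / 2 ≤ b →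
    GG c n y a b l → Lam c - A ≤ l + dt (un θ) y

theorem KP.mirror {c : ℝ} {n : ℕ} (h : KP c n) {y : ℂ} {θ a b l A : ℝ} (h0 : 0 ≤ A)
    (h1 : A ≤ π / 2 + c) (ha : a ≤ θ - π / 2) (hb : θ + π / 2 - A ≤ b) (hG : GG c n y a b l) :
    Lam c - A ≤ l + dt (un θ) y := by
  have h2 := h _ (-θ) (-b) (-a) l A h0 h1 (by linarith) (by linarith) hG.conj
  rwa [dt_conj] at h2

theorem dt_ext {θ : ℝ} {y z : ℂ} : dt (un θ) z ≤ dt (un θ) y + dist y z := by
  have h4 := dt_le (un θ) (z - y)
  have h5 : dt (un θ) z = dt (un θ) y + dt (un θ) (z - y) := by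
    simp only [dt, Complex.sub_re, Complex.sub_im]; ring
  rw [norm_un, one_mul, ← dist_eq_norm, dist_comm] at h4
  linarith

theorem near_split {c : ℝ} (hc0 : 0 < c) (hc : c < π / 2) {n : ℕ} (hK : KP c n) {y : ℂ}
    {θ a b l m s A T : ℝ} (hA0 : 0 ≤ A) (hA : A ≤ π / 6) (hT0 : 0 ≤ T) (hT : T ≤ π / 6 + c)
    (h1 : θ - π / 2 + A < s) (h2 : s - (θ - π / 2 + A) ≤ π / 3 - A) (ha : a ≤ θ - π / 2 + A)
    (hb : θ + π / 2 - T ≤ b) (G1 : GG c n y a s l) (G2 : GG c n y s b m) :
    Lam c - T - 2 * A + 2 * Real.sin A ≤ l + m + dt (un θ) y := by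
  have hpi := Real.pi_pos
  have e1 := near_eq A (θ - π / 2 + A)
  rw [show θ - π / 2 + A + π / 2 - A = θ by ring] at e1
  by_cases hs : s ≤ θ - π / 2 + A + A
  · have k1 := near_cert0 hc0 hc hA0 hA G1 ha h1
    have k2 := hK.mirror (θ := θ - π / 2 + A + A + π / 2) (A := T + 2 * A) (by linarith)
      (by linarith) (by linarith) (by linarith) G2
    have e2 := un_add_pi (θ - π / 2 + A + A - π / 2)
    rw [show θ - π / 2 + A + A - π / 2 + π = θ - π / 2 + A + A + π / 2 by ring] at e2
    have e3 : un θ = ((2 * Real.sin A : ℝ) : ℂ) * un (θ - π / 2 + A) +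
        un (θ - π / 2 + A + A + π / 2) := by
      rw [e2, ← e1]; ring
    have e4 := dt_add (((2 * Real.sin A : ℝ) : ℂ) * un (θ - π / 2 + A))
      (un (θ - π / 2 + A + A + π / 2)) y
    rw [← e3] at e4
    linarith
  · have hs' := (not_le.1 hs).le
    have k1 := near_cert1 hc0 hc hA0 hs' (by linarith) h1 G1 ha le_rfl
    have k2 := hK.mirror (θ := s + π / 2) (A := T + A + (s - (θ - π / 2 + A))) (by linarith)
      (by linarith) (by linarith) (by linarith) G2
    have e2 := un_add_pi (s - π / 2)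
    rw [show s - π / 2 + π = s + π / 2 by ring] at e2
    have e3 : un θ = (((2 * Real.sin A : ℝ) : ℂ) * un (θ - π / 2 + A) +
        (un (s - π / 2) - un (θ - π / 2 + A + A - π / 2))) + un (s + π / 2) := by
      rw [e2, ← e1]; ring
    have e4 := dt_add (((2 * Real.sin A : ℝ) : ℂ) * un (θ - π / 2 + A) +
        (un (s - π / 2) - un (θ - π / 2 + A + A - π / 2))) (un (s + π / 2)) y
    rw [← e3] at e4
    linarith

theorem un_third (θ : ℝ) : un (θ - π / 3) + un (θ + π / 3) = un θ := by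
  apply Complex.ext
  · simp only [un, Complex.add_re, Real.cos_sub, Real.cos_add, Real.cos_pi_div_three]; ring
  · simp only [un, Complex.add_im, Real.sin_sub, Real.sin_add, Real.cos_pi_div_three]; ring

theorem mid_split {c : ℝ} (hc0 : 0 < c) (hc : c < π / 2) {n : ℕ} {y : ℂ}
    {θ a b l m s A T : ℝ} (hA0 : 0 ≤ A) (hA : A ≤ π / 6 + c) (hT0 : 0 ≤ T) (hT : T ≤ π / 6 + c)
    (hm : A ≤ π / 6 ∨ T ≤ π / 6) (h1 : θ - π / 2 + A < s) (h2 : s < θ + π / 2 - T)
    (h3 : A ≤ π / 6 → π / 3 - A ≤ s - (θ - π / 2 + A))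
    (h4 : T ≤ π / 6 → π / 3 - T ≤ θ + π / 2 - T - s) (ha : a ≤ θ - π / 2 + A)
    (hb : θ + π / 2 - T ≤ b) (G1 : GG c n y a s l) (G2 : GG c n y s b m) :
    Lam c - A - T + min A T / 2 ≤ l + m + dt (un θ) y := by
  obtain ⟨v₁, v₂, c1, c2, e⟩ := mid (r₁ := s - θ + π / 3) (r₂ := θ + π / 3 - s) hc0 hc hA0 hA hT0
    hT (by ring) (by linarith) (by linarith) (fun h => by linarith [h3 h])
    (fun h => by linarith [h4 h]) hm
  have k1 := c1 n y (θ - π / 3) a s l (by linarith) (by linarith) G1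
  have k2 := c2.mirror (θ := θ + π / 3) (by linarith) (by linarith) G2
  have e4 := dt_add (un (θ - π / 3)) (un (θ + π / 3)) y
  rw [un_third] at e4
  linarith

theorem K_term {c : ℝ} (hc0 : 0 < c) (hc : c < π / 2) {n : ℕ} {y : ℂ} {θ a b l A : ℝ}
    (hA : π / 6 + c ≤ A) (hA2 : A ≤ π / 2 + c) (ha : a ≤ θ - π / 2 + A) (hb : θ + π / 2 ≤ b)
    (G : GG c n y a b l) : Lam c - A ≤ l + dt (un θ) y := by
  have hpi := Real.pi_pos
  have h := certT (q := π / 2 - A) (χ := π / 2 - A + c) (τ := 0) hc0 hc (by linarith)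
    (by linarith) (by linarith) le_rfl (by linarith) (by linarith) n y θ a b l (by linarith)
    (by linarith) G
  rw [show π / 2 - A + c - (π / 2 - A) = c by ring, Real.sin_zero] at h
  unfold Lam
  linarith

theorem two_sin {A : ℝ} (h0 : 0 ≤ A) (h1 : A ≤ π / 6) : A ≤ 2 * Real.sin A := by
  linarith [nB_T h0 h1]

/-- **The bound for intervals with one exact end.** -/
theorem K_all {c : ℝ} (hc0 : 0 < c) (hc : c < π / 2) (n : ℕ) : KP c n := by
  have hpi := Real.pi_pos
  induction n with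
  | zero =>
    intro y θ a b l A h0 h1 ha hb G
    cases G with
    | leaf _ hcov =>
      have k1 := cov hc0 hc (θ := θ - π / 2 + A - c) (hcov (θ - π / 2 + A) ⟨ha, by linarith⟩)
      rw [show θ - π / 2 + A - c - (θ - π / 2 + A) = -c by ring, phi_neg] at k1
      have k2 := arc_leaf hc0 hc (s := θ - π / 2 + A + (π / 2 - c)) (t := θ + π / 2) (x := y)
        (by linarith) fun u hu => hcov u ⟨by linarith [hu.1], by linarith [hu.2]⟩
      rw [show θ + π / 2 - π / 2 = θ by ring,
        show θ - π / 2 + A + (π / 2 - c) - π / 2 = θ - π / 2 + A - c by ring] at k2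
      have e : dt (un θ - un (θ - π / 2 + A - c)) y =
          dt (un θ) y - dt (un (θ - π / 2 + A - c)) y := by
        simp only [dt, Complex.sub_re, Complex.sub_im]; ring
      unfold Lam
      linarith
  | succ n ih =>
    intro y θ a b l A h0 h1 ha hb G
    by_cases hA : π / 6 + c ≤ A
    · exact K_term hc0 hc hA h1 ha hb G
    have hA' := (not_le.1 hA).le
    cases G with
    | mono G => exact ih y θ a b l A h0 h1 ha hb G
    | @ext _ _ z _ _ l' G =>
      have k1 := ih z θ a b l' A h0 h1 ha hb G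
      have k2 := dt_ext (θ := θ) (y := y) (z := z)
      linarith
    | @split _ _ _ s _ l' m h3 h4 G1 G2 =>
      have p1 := G1.nonneg
      have p2 := G2.nonneg
      by_cases hs1 : s ≤ θ - π / 2 + A
      · have k1 := ih y θ s b m A h0 h1 hs1 hb G2
        linarith
      have hs1' := not_le.1 hs1
      by_cases hs2 : θ + π / 2 ≤ s
      · have k1 := ih y θ a s l' A h0 h1 ha hs2 G1
        linarith
      have hs2' := not_le.1 hs2
      by_cases hF : θ + π / 2 - s ≤ π / 3
      · -- far split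
        have k1 := ih y (s - π / 2) a s l' (θ + π / 2 - s + A) (by linarith) (by linarith)
          (by linarith) (by linarith) G1
        have k2 := arc_cert hc0 hc hs2'.le hF G2 le_rfl hb
        rw [show θ + π / 2 - π / 2 = θ by ring] at k2
        have e : dt (un θ - un (s - π / 2)) y = dt (un θ) y - dt (un (s - π / 2)) y := by
          simp only [dt, Complex.sub_re, Complex.sub_im]; ring
        linarith
      have hF' := (not_le.1 hF).le
      by_cases hN : A ≤ π / 6 ∧ s - (θ - π / 2 + A) ≤ π / 3 - A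
      · have k1 := near_split hc0 hc ih (T := 0) h0 hN.1 le_rfl (by linarith) hs1' hN.2 ha
          (by linarith) G1 G2
        have k2 := two_sin h0 hN.1
        linarith
      · have k1 := mid_split hc0 hc (T := 0) h0 hA' le_rfl (by linarith) (Or.inr (by linarith))
          hs1' (by linarith) (fun h => by
            by_contra hcon
            exact hN ⟨h, (not_le.1 hcon).le⟩) (fun _ => by linarith) ha (by linarith) G1 G2
        rw [min_eq_right h0] at k1
        linarith

end Pool.Agent.W_8c5d11_f73
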