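import Pool.Agent.W_8c5d11_f73.Def
import Pool.Agent.W_8c5d11_g83.Ineq

/-!
MP_8c5d11_gt: numerical inequalities for the horseshoe theorem.
-/

set_option autoImplicit false

open Set
open scoped Real

namespace Pool.Agent.W_8c5d11_f73

open Pool.Agent.W_8c5d11_g83 (sin_ge_cubic cos_le_quartic sin_le_quintic pi_bounds sqrt3_bd
  sqrt3_sq cos_ge_of_le)

theorem NN_cases (c τ : ℝ) :
    (c ≤ π / 4 ∧ NN c τ = 1.086 + (τ - Real.sin τ) + (1 - Real.cos τ)) ∨
    (π / 4 < c ∧ c ≤ π / 3 ∧ NN c τ = 1.15 + 2 * (τ - Real.sin τ)) ∨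
    (π / 3 < c ∧ NN c τ = 1.23 + 2 * (τ - Real.sin τ)) := by
  unfold NN
  split_ifs with h1 h2
  · exact Or.inl ⟨h1, rfl⟩
  · exact Or.inr (Or.inl ⟨not_le.1 h1, h2, rfl⟩)
  · exact Or.inr (Or.inr ⟨not_le.1 h2, rfl⟩)

theorem sqrt2_bd : 1.41421 < Real.sqrt 2 ∧ Real.sqrt 2 < 1.41422 := by
  constructor
  · rw [Real.lt_sqrt (by norm_num)]; norm_num
  · rw [Real.sqrt_lt' (by norm_num)]; norm_num

theorem one_sub_cos_le (t : ℝ) : 1 - Real.cos t ≤ t ^ 2 / 2 := by
  linarith [Real.one_sub_sq_div_two_le_cos (x := t)]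

theorem sub_sin_nonneg {t : ℝ} (h0 : 0 ≤ t) : 0 ≤ t - Real.sin t := by
  linarith [Real.sin_le h0]

theorem sub_sin_le {t : ℝ} (h0 : 0 ≤ t) : t - Real.sin t ≤ t ^ 3 / 6 := by
  linarith [sin_ge_cubic h0]

theorem e_le {t : ℝ} (h0 : 0 ≤ t) (h1 : t ≤ π / 6) : 1 - Real.cos t ≤ 0.134 := by
  have := cos_ge_of_le h0 h1
  obtain ⟨q1, q2⟩ := sqrt3_bd
  linarith only [this, q1]

theorem sub_sin_num {t : ℝ} (h0 : 0 ≤ t) (h1 : t ≤ π / 6) : t - Real.sin t ≤ 0.024 := by
  obtain ⟨p1, p2⟩ := pi_bounds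
  have h := sub_sin_le h0
  have h2 : t ^ 3 ≤ 0.5236 ^ 3 := pow_le_pow_left₀ h0 (by linarith) 3
  have h3 : (0.5236 : ℝ) ^ 3 ≤ 0.1436 := by norm_num
  linarith only [h, h2]

/-- `(τ - sin τ) ≤ 1 - cos τ` -/
theorem sub_sin_le_one_sub_cos {t : ℝ} (h0 : 0 ≤ t) (h1 : t ≤ π / 6) :
    t - Real.sin t ≤ 1 - Real.cos t := by
  obtain ⟨p1, p2⟩ := pi_bounds
  have h := sub_sin_le h0
  have h2 := cos_le_quartic h0
  have h3 : 0 ≤ t ^ 2 * (0.5236 - t) := mul_nonneg (by positivity) (by linarith only [h1, p2])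
  have h4 : 0 ≤ t ^ 3 * (0.5236 - t) := mul_nonneg (by positivity) (by linarith only [h1, p2])
  linarith only [h, h2, h3, h4, sq_nonneg t]

/-! ### the half angle -/

theorem phi_cc (c : ℝ) : phi c c = 1 - (1 - Real.cos c) / Real.sin c := rfl

theorem half_le {c : ℝ} (hc0 : 0 < c) (hc : c < π / 2) :
    c / 2 ≤ (1 - Real.cos c) / Real.sin c := by
  have hs : 0 < Real.sin c := Real.sin_pos_of_pos_of_lt_pi hc0 (by linarith [Real.pi_pos])
  rw [le_div_iff₀ hs]
  have h1 : Real.cos c = 1 - 2 * Real.sin (c / 2) ^ 2 := by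
    have := Real.cos_two_mul (c / 2)
    have h2 := Real.sin_sq_add_cos_sq (c / 2)
    rw [show 2 * (c / 2) = c by ring] at this
    linarith
  have h2 : Real.sin c = 2 * Real.sin (c / 2) * Real.cos (c / 2) := by
    have := Real.sin_two_mul (c / 2)
    rwa [show 2 * (c / 2) = c by ring] at this
  have hpi := Real.pi_pos
  have h3 : 0 < Real.cos (c / 2) := Real.cos_pos_of_mem_Ioo ⟨by linarith only [hc0, hc], by linarith⟩
  have h4 : c / 2 < Real.tan (c / 2) := Real.lt_tan (by linarith only [hc0]) (by linarith only [hc0, hc])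
  rw [Real.tan_eq_sin_div_cos, lt_div_iff₀ h3] at h4
  have h5 : 0 < Real.sin (c / 2) := Real.sin_pos_of_pos_of_lt_pi (by linarith only [hc0]) (by linarith only [hc0, hc])
  have h6 := mul_le_mul_of_nonneg_left h4.le h5.le
  rw [h1, h2]
  linarith only [h6]

theorem phi_cc_nonneg {c : ℝ} (hc0 : 0 < c) (hc : c < π / 2) : 0 ≤ phi c c := by
  have hpi := Real.pi_pos
  have hs : 0 < Real.sin c := Real.sin_pos_of_pos_of_lt_pi hc0 (by linarith)
  have hcc : 0 < Real.cos c := Real.cos_pos_of_mem_Ioo ⟨by linarith, by linarith⟩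
  have h1 : 1 - Real.cos c ≤ Real.sin c := by
    have h := Real.sin_sq_add_cos_sq c
    nlinarith only [hcc, h, mul_pos hs hcc]
  have h2 : (1 - Real.cos c) / Real.sin c ≤ 1 := by rw [div_le_one hs]; exact h1
  rw [phi_cc]; linarith

theorem phi_cc_le {c : ℝ} (hc0 : 0 < c) (hc : c < π / 2) : phi c c ≤ 1 - c / 2 := by
  rw [phi_cc]; linarith only [half_le hc0 hc]

/-! ### the function `(c - K) sin c + cos c` -/

theorem hasDerivAt_Fq (K x : ℝ) :
    HasDerivAt (fun c => (c - K) * Real.sin c + Real.cos c) ((x - K) * Real.cos x) x := by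
  have h := (((hasDerivAt_id' x).sub_const K).mul (Real.hasDerivAt_sin x)).add
    (Real.hasDerivAt_cos x)
  exact h.congr_deriv (by ring)

theorem Fq_mono {K c u : ℝ} (hK : K ≤ c) (h0 : 0 ≤ c) (hcu : c ≤ u) (hu : u ≤ π / 2) :
    (c - K) * Real.sin c + Real.cos c ≤ (u - K) * Real.sin u + Real.cos u := by
  have hm : MonotoneOn (fun c => (c - K) * Real.sin c + Real.cos c) (Icc c u) := by
    apply monotoneOn_of_deriv_nonneg (convex_Icc _ _)
    · exact fun x _ => (hasDerivAt_Fq K x).continuousAt.continuousWithinAt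
    · exact fun x _ => (hasDerivAt_Fq K x).differentiableAt.differentiableWithinAt
    · intro x hx
      rw [interior_Icc] at hx
      rw [(hasDerivAt_Fq K x).deriv]
      exact mul_nonneg (by linarith [hx.1])
        (Real.cos_nonneg_of_mem_Icc ⟨by linarith [hx.1, Real.pi_pos], by linarith [hx.2]⟩)
  exact hm (left_mem_Icc.2 hcu) (right_mem_Icc.2 hcu) hcu

theorem Fq_anti {K c l : ℝ} (hK : c ≤ K) (h0 : 0 ≤ l) (hlc : l ≤ c) (hc : c ≤ π / 2) :
    (c - K) * Real.sin c + Real.cos c ≤ (l - K) * Real.sin l + Real.cos l := by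
  have hm : AntitoneOn (fun c => (c - K) * Real.sin c + Real.cos c) (Icc l c) := by
    apply antitoneOn_of_deriv_nonpos (convex_Icc _ _)
    · exact fun x _ => (hasDerivAt_Fq K x).continuousAt.continuousWithinAt
    · exact fun x _ => (hasDerivAt_Fq K x).differentiableAt.differentiableWithinAt
    · intro x hx
      rw [interior_Icc] at hx
      rw [(hasDerivAt_Fq K x).deriv]
      exact mul_nonpos_of_nonpos_of_nonneg (by linarith only [hK, hx.2])
        (Real.cos_nonneg_of_mem_Icc ⟨by linarith [hx.1, Real.pi_pos], by linarith [hx.2]⟩)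
  exact hm (left_mem_Icc.2 hlc) (right_mem_Icc.2 hlc) hlc

/-- the three numerical facts on `c + π / 6 - (√3 / 2 - cos c) / sin c` -/
theorem Fq_bound {c : ℝ} (hc0 : π / 6 ≤ c) (hc : c < π / 2) {M u : ℝ} (hcu : c ≤ u)
    (hu : u ≤ π / 2) (hM : π / 3 ≤ M)
    (hMu : (u - (M - π / 6)) * Real.sin u + Real.cos u ≤ Real.sqrt 3 / 2) :
    c + π / 6 + (Real.cos c - Real.sqrt 3 / 2) / Real.sin c ≤ M := by
  have hpi := Real.pi_pos
  have hs : 0 < Real.sin c := Real.sin_pos_of_pos_of_lt_pi (by linarith only [hc0, hc]) (by linarith only [hc0, hc])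
  have key : (c - (M - π / 6)) * Real.sin c + Real.cos c ≤ Real.sqrt 3 / 2 := by
    rcases le_total (M - π / 6) c with h | h
    · exact (Fq_mono h (by linarith only [hc0, hc]) hcu hu).trans hMu
    · refine (Fq_anti h (by linarith only [hpi]) hc0 hc.le).trans ?_
      rw [Real.sin_pi_div_six, Real.cos_pi_div_six]
      linarith only [hM]
  have h2 : (Real.cos c - Real.sqrt 3 / 2) / Real.sin c ≤ M - π / 6 - c := by
    rw [div_le_iff₀ hs]; linarith only [key]
  linarith only [h2]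

theorem Fq_all {c τ : ℝ} (hc0 : π / 6 ≤ c) (hc : c < π / 2) (h0 : 0 ≤ τ) (h1 : τ ≤ π / 6) :
    c + π / 6 + (Real.cos c - Real.sqrt 3 / 2) / Real.sin c ≤
      NN c τ - 2 * (τ - Real.sin τ) := by
  obtain ⟨p1, p2⟩ := pi_bounds
  obtain ⟨q1, q2⟩ := sqrt3_bd
  obtain ⟨r1, r2⟩ := sqrt2_bd
  have e1 := sub_sin_le_one_sub_cos h0 h1
  rcases NN_cases c τ with ⟨h, hN⟩ | ⟨h, h', hN⟩ | ⟨h, hN⟩
  · have h2 := Fq_bound (M := 1.086) (u := π / 4) hc0 hc h (by linarith only [p1]) (by linarith only [p2]) (by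
      rw [Real.sin_pi_div_four, Real.cos_pi_div_four]
      have : (π / 4 - (1.086 - π / 6)) ≤ 0.223 := by linarith only [p2]
      nlinarith only [p2, q1, r1, r2])
    rw [hN]; linarith only [e1, h2]
  · have h2 := Fq_bound (M := 1.15) (u := π / 3) hc0 hc h' (by linarith only [h, h']) (by linarith only [p2]) (by
      rw [Real.sin_pi_div_three, Real.cos_pi_div_three]
      have : (π / 3 - (1.15 - π / 6)) ≤ 0.4208 := by linarith only [p2]
      nlinarith only [p2, q1])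
    rw [hN]; linarith only [h2]
  · have h2 := Fq_bound (M := 1.23) (u := π / 2) hc0 hc hc.le (by linarith only []) (by linarith only [p2]) (by
      rw [Real.sin_pi_div_two, Real.cos_pi_div_two]
      linarith only [p2, q1])
    rw [hN]; linarith only [h2]

/-- `1.086 ≤ NN c τ - 2 (τ - sin τ)` -/
theorem NN_lower {c τ : ℝ} (h0 : 0 ≤ τ) (h1 : τ ≤ π / 6) :
    1.086 ≤ NN c τ - 2 * (τ - Real.sin τ) := by
  have e1 := sub_sin_le_one_sub_cos h0 h1
  rcases NN_cases c τ with ⟨h, hN⟩ | ⟨h, h', hN⟩ | ⟨h, hN⟩ <;> rw [hN] <;> linarith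

/-- large side, first case: `φ_c(π/6+a)+a` is increasing for `π/6+a ≤ c`, and
`Lam c - phi c (π/6) - π/3 = π/6 + c - (√3/2 - cos c)/sin c` is increasing in `c` with values
1.0843 at π/4, 1.1482 at π/3, 1.2284 at π/2 -/
theorem nL_chi {c a τ : ℝ} (ha : 0 ≤ a) (hac : π / 6 + a ≤ c) (hc : c < π / 2) (h0 : 0 ≤ τ)
    (h1 : τ ≤ π / 6) :
    Lam c - NN c τ ≤ phi c (π / 6 + a) + (π / 3 - 2 * τ + 2 * Real.sin τ) + a := by
  have hpi := Real.pi_pos
  have hs : 0 < Real.sin c := Real.sin_pos_of_pos_of_lt_pi (by linarith only [ha, hac, hc]) (by linarith)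
  have h2 := Fq_all (τ := τ) (by linarith only [ha, hac] : π / 6 ≤ c) hc h0 h1
  -- `cos (π / 6) - cos (π / 6 + a) ≤ a sin c`
  have h3 : Real.cos (π / 6) - Real.cos (π / 6 + a) ≤ (π / 6 + a - π / 6) * Real.sin (π / 6 + a) :=
    Pool.Agent.W_8c5d11_g83.cos_sub_le (by linarith only [hpi]) (by linarith) (by linarith)
  have h4 : Real.sin (π / 6 + a) ≤ Real.sin c :=
    Real.sin_le_sin_of_le_of_le_pi_div_two (by linarith) hc.le hac
  rw [Real.cos_pi_div_six] at h3
  have h5 : Real.sqrt 3 / 2 - Real.cos (π / 6 + a) ≤ a * Real.sin c := by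
    have := mul_le_mul_of_nonneg_left h4 ha
    linarith
  have h6 : (Real.sqrt 3 / 2 - Real.cos (π / 6 + a)) / Real.sin c ≤ a := by
    rw [div_le_iff₀ hs]; exact h5
  have h7 : (1 - Real.cos (π / 6 + a)) / Real.sin c - (1 - Real.cos c) / Real.sin c =
      (Real.cos c - Real.sqrt 3 / 2) / Real.sin c +
      (Real.sqrt 3 / 2 - Real.cos (π / 6 + a)) / Real.sin c := by ring
  unfold Lam phi
  linarith only [h2, h6, h7]

theorem nL_T {c τ : ℝ} (hc0 : 0 < c) (hc : c < π / 2) (h0 : 0 ≤ τ) (h1 : τ ≤ π / 6) :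
    Lam c - NN c τ ≤ phi c c + c + π / 6 - 2 * τ + 2 * Real.sin τ := by
  obtain ⟨p1, p2⟩ := pi_bounds
  have h2 := NN_lower (c := c) h0 h1
  unfold Lam
  linarith

/-- the quotient -/
theorem quotQ {m τ z : ℝ} (hm : 0 ≤ m) (h0 : 0 ≤ τ) (h1 : τ ≤ π / 6) (hz : -τ ≤ z)
    (hz' : z ≤ τ) :
    m * Real.cos τ + Real.sin τ + z - 0.28 * (1 - Real.cos τ) ≤
      (m * Real.cos τ + Real.sin (τ + z)) / Real.cos z := by
  obtain ⟨p1, p2⟩ := pi_bounds
  have cz : 0 < Real.cos z := Real.cos_pos_of_mem_Ioo ⟨by linarith only [h1, hz, p1], by linarith⟩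
  have ct : 0 < Real.cos τ := Real.cos_pos_of_mem_Ioo ⟨by linarith, by linarith only [h1, p1]⟩
  have he := e_le h0 h1
  have hct := Real.cos_le_one τ
  have hcz := Real.cos_le_one z
  rw [le_div_iff₀ cz, Real.sin_add]
  set e := 1 - Real.cos τ with he'
  have hce : Real.cos τ = 1 - e := by rw [he']; ring
  have he0 : 0 ≤ e := by rw [he']; linarith only [hct]
  -- main inequality
  have main : z * Real.cos z - Real.sin z + e * Real.sin z ≤ 0.28 * e * Real.cos z := by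
    rcases le_total z 0 with h | h
    · set u := -z with hu
      have hzu : z = -u := by rw [hu]; ring
      have hu0 : 0 ≤ u := by rw [hu]; linarith only [h]
      have hcu : Real.cos z = Real.cos u := by rw [hzu, Real.cos_neg]
      have hsu : Real.sin z = -Real.sin u := by rw [hzu, Real.sin_neg]
      have a1 := Real.sin_le hu0
      have a2 : 0 ≤ Real.sin u := Real.sin_nonneg_of_nonneg_of_le_pi hu0 (by linarith only [h1, hz, p1])
      have a3 : 1 - Real.cos u ≤ e := by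
        have : Real.cos τ ≤ Real.cos u :=
          Real.cos_le_cos_of_nonneg_of_le_pi hu0 (by linarith only [h0, h1]) (by linarith)
        linarith only [this]
      rw [hcu] at cz
      have a4 : 0 ≤ Real.sin u * (e - (1 - Real.cos u)) := mul_nonneg a2 (by linarith only [a3])
      have a5 : 0 ≤ (u - Real.sin u) * Real.cos u := mul_nonneg (by linarith only [a1]) cz.le
      have a6 : 0 ≤ e * Real.cos u := mul_nonneg he0 cz.le
      rw [hcu, hsu, hzu]
      linarith only [a4, a5, a6]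
    · have a1 := Real.sin_le h
      have a0 : 0 ≤ Real.sin z := Real.sin_nonneg_of_nonneg_of_le_pi h (by linarith only [h1, hz, hz'])
      have a2 := Real.one_sub_sq_div_two_le_cos (x := z)
      have b1 := sin_ge_cubic h
      have b2 := cos_le_quartic h
      have hz3 : 0 ≤ z ^ 3 := by positivity
      have hz5 : z ^ 5 ≤ 0.28 * z ^ 3 := by
        have : z ^ 2 ≤ 0.28 := by nlinarith only [h1, hz, hz', p2]
        have h5 : z ^ 5 = z ^ 2 * z ^ 3 := by ring
        rw [h5]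
        exact mul_le_mul_of_nonneg_right this hz3
      -- `z³/3 - z⁵/24 ≤ sin z - z cos z`
      have b3 : z ^ 3 / 3 - z ^ 5 / 24 ≤ Real.sin z - z * Real.cos z := by
        have := mul_le_mul_of_nonneg_left b2 h
        linarith only [b1, this]
      rcases le_total (Real.sin z) (0.28 * Real.cos z) with h' | h'
      · have := mul_le_mul_of_nonneg_left h' he0
        linarith only [hz3, hz5, b3, this]
      · have c1 : e * (Real.sin z - 0.28 * Real.cos z) ≤
            0.134 * (Real.sin z - 0.28 * Real.cos z) :=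
          mul_le_mul_of_nonneg_right he (by linarith only [h'])
        have c2 : 0.134 * (Real.sin z - 0.28 * Real.cos z) ≤
            0.134 * (z - 0.28 * (1 - z ^ 2 / 2)) := by linarith only [a1, a2]
        have c3 : 0 ≤ z * (z - 0.39) ^ 2 := mul_nonneg h (sq_nonneg _)
        have c4 : 0.134 * (z - 0.28 * (1 - z ^ 2 / 2)) ≤ z ^ 3 / 3 - z ^ 5 / 24 := by
          linarith only [h1, hz', p2, hz5, c3, sq_nonneg (z - 0.39)]
        linarith only [b3, c1, c2, c4]
  have hmc : m * Real.cos τ * Real.cos z ≤ m * Real.cos τ := by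
    have : 0 ≤ m * Real.cos τ := mul_nonneg hm ct.le
    nlinarith only [hcz, this]
  have e2 : Real.cos τ * Real.sin z = Real.sin z - e * Real.sin z := by rw [hce]; ring
  rw [e2]
  linarith only [main, hmc]

/-- with `z = χ - τ ∈ [-τ, τ]`: `(m cos τ + sin (τ+z))/cos z = m cos τ/cos z + sin τ + cos τ tan z`,
`1/cos z ≥ 1` and `z - cos τ tan z ≤ 0.036`; `m = phi c c ∈ (0, 1]`, `≤ 0.5858` for `c ≥ π/4`,
`≤ 0.4227` for `c ≥ π/3` -/
theorem nL_P {c χ τ : ℝ} (hc0 : 0 < c) (hc : c < π / 2) (hχ0 : 0 ≤ χ) (hχ : χ ≤ 2 * τ)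
    (h1 : τ ≤ π / 6) :
    Lam c - NN c τ ≤
      (phi c c * Real.cos τ + Real.sin χ) / Real.cos (χ - τ) + (π / 6 + c - χ) := by
  obtain ⟨p1, p2⟩ := pi_bounds
  have h0 : 0 ≤ τ := by linarith only [hχ0, hχ]
  have hm0 := phi_cc_nonneg hc0 hc
  have hm1 := phi_cc_le hc0 hc
  have hQ := quotQ (z := χ - τ) hm0 h0 h1 (by linarith only [hχ0]) (by linarith only [hχ])
  rw [show τ + (χ - τ) = χ by ring] at hQ
  have he := e_le h0 h1
  have he0 : 0 ≤ 1 - Real.cos τ := by linarith only [Real.cos_le_one τ]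
  have hs0 := sub_sin_nonneg h0
  have goal : phi c c * (1 - Real.cos τ) + π / 3 + (τ - Real.sin τ) +
      0.28 * (1 - Real.cos τ) ≤ NN c τ := by
    rcases NN_cases c τ with ⟨h, hN⟩ | ⟨h, h', hN⟩ | ⟨h, hN⟩
    · rw [hN]
      have : phi c c * (1 - Real.cos τ) ≤ 1 * (1 - Real.cos τ) :=
        mul_le_mul_of_nonneg_right (by linarith only [hc0, hm1]) he0
      linarith only [p2, he, this]
    · rw [hN]
      have a1 : phi c c * (1 - Real.cos τ) ≤ 0.6074 * (1 - Real.cos τ) :=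
        mul_le_mul_of_nonneg_right (by linarith only [p1, hm1, h]) he0
      have a2 := one_sub_cos_le τ
      have a3 : τ ^ 3 / 6 - τ ^ 5 / 120 ≤ τ - Real.sin τ := by
        linarith only [sin_le_quintic h0]
      have a4 : τ ^ 5 ≤ 0.28 * τ ^ 3 := by
        have : τ ^ 2 ≤ 0.28 := by nlinarith only [h1, p2, h0]
        have h5 : τ ^ 5 = τ ^ 2 * τ ^ 3 := by ring
        rw [h5]
        exact mul_le_mul_of_nonneg_right this (by positivity)
      have a5 : 0.4437 * τ ^ 2 ≤ 0.1028 + 0.16 * τ ^ 3 := by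
        nlinarith only [a4, mul_nonneg h0 (sq_nonneg (τ - 0.5))]
      have a6 : 0 ≤ τ ^ 3 := by positivity
      linarith only [p2, a1, a2, a3, a4, a5, a6]
    · rw [hN]
      have : phi c c * (1 - Real.cos τ) ≤ 0.4765 * (1 - Real.cos τ) :=
        mul_le_mul_of_nonneg_right (by linarith only [p1, hm1, h]) he0
      linarith only [p2, he, hs0, this]
  unfold Lam
  linarith

/-- the left hand side is `1.086 + (τ - sin τ) + (1 - cos τ)`; the fraction is
`cos ((a+τ)/2) / cos (π/6 + (τ-a)/2)`; slack at least 0.019 (at a = τ = π/6) -/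
theorem nS1 {c a τ : ℝ} (hc : c ≤ π / 4) (ha0 : 0 ≤ a) (ha : a ≤ π / 6) (h0 : 0 ≤ τ)
    (h1 : τ ≤ π / 6) :
    NN c τ ≤ (Real.sin (π / 6 + τ) + Real.sin (π / 6 - a)) / Real.sin (π / 3 + τ - a) + a / 2 := by
  obtain ⟨p1, p2⟩ := pi_bounds
  have hN : NN c τ = 1.086 + (τ - Real.sin τ) + (1 - Real.cos τ) := by
    unfold NN; rw [if_pos hc]
  set k := (π / 6 - a) / 2 with hk
  set β := π / 12 + τ / 2 with hβ
  have hk0 : 0 ≤ k := by rw [hk]; linarith only [ha]
  have hk1 : k ≤ 0.2618 := by rw [hk]; linarith only [ha0, p2]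
  have hβ0 : 0 ≤ β := by rw [hβ]; linarith only [h0, h1]
  have hβ1 : β ≤ 0.5236 := by rw [hβ]; linarith only [h1, p2]
  have e1 : Real.sin (π / 6 + τ) + Real.sin (π / 6 - a) =
      2 * Real.sin (β + k) * Real.cos (β - k) := by
    rw [show π / 6 + τ = (β + k) + (β - k) by rw [hβ, hk]; ring,
      show π / 6 - a = (β + k) - (β - k) by rw [hk]; ring, Real.sin_add (β + k),
      Real.sin_sub (β + k)]
    ring
  have e2 : Real.sin (π / 3 + τ - a) = 2 * Real.sin (β + k) * Real.cos (β + k) := by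
    rw [show π / 3 + τ - a = 2 * (β + k) by rw [hβ, hk]; ring, Real.sin_two_mul]
  have hsin : 0 < Real.sin (π / 3 + τ - a) :=
    Real.sin_pos_of_pos_of_lt_pi (by linarith only [ha, h0, p1]) (by linarith only [ha0, h1, p1])
  have hs : 0 < Real.sin (β + k) :=
    Real.sin_pos_of_pos_of_lt_pi (by rw [hβ, hk]; linarith only [ha, h0, p1]) (by linarith only [p1, hk1, hβ1])
  have hcc : 0 < Real.cos (β + k) := Real.cos_pos_of_mem_Ioo ⟨by linarith only [p1, hk0, hβ0], by linarith⟩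
  have e3 : 1 + 2 * k * β ≤
      (Real.sin (π / 6 + τ) + Real.sin (π / 6 - a)) / Real.sin (π / 3 + τ - a) := by
    rw [le_div_iff₀ hsin, e1, e2]
    have h2 : (1 + 2 * k * β) * Real.cos (β + k) ≤ Real.cos (β - k) := by
      have cb : 0 < Real.cos β := Real.cos_pos_of_mem_Ioo ⟨by linarith only [h0, p1, hβ], by linarith only [h1, p1, hβ]⟩
      have ck : 0 < Real.cos k := Real.cos_pos_of_mem_Ioo ⟨by linarith only [ha, p1, hk], by linarith only [ha0, p1, hk]⟩
      have sb : 0 ≤ Real.sin β := Real.sin_nonneg_of_nonneg_of_le_pi hβ0 (by linarith only [h1, p1, hβ])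
      have sk : 0 ≤ Real.sin k := Real.sin_nonneg_of_nonneg_of_le_pi hk0 (by linarith only [ha0, ha, hk])
      -- `sin k ≥ k cos k`, `sin β ≥ β cos β`
      have f1 := Pool.Agent.W_8c5d11_g83.sin_sub_mul_cos_nonneg hk0 (by linarith only [hk1])
      have f2 := Pool.Agent.W_8c5d11_g83.sin_sub_mul_cos_nonneg hβ0 hβ1
      have f3 : (k * Real.cos k) * (β * Real.cos β) ≤ Real.sin k * Real.sin β :=
        mul_le_mul (by linarith only [f1]) (by linarith only [f2]) (mul_nonneg hβ0 cb.le) sk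
      have f4 : 0 ≤ k * β * (Real.sin β * Real.sin k) :=
        mul_nonneg (mul_nonneg hk0 hβ0) (mul_nonneg sb sk)
      rw [Real.cos_add, Real.cos_sub]
      linarith only [f3, f4]
    nlinarith only [hs, h2]
  have e4 : τ - Real.sin τ ≤ τ ^ 3 / 6 := sub_sin_le h0
  have e5 := one_sub_cos_le τ
  have e6 : a / 2 = π / 12 - k := by rw [hk]; ring
  rw [hN, e6]
  have hτ : τ ≤ 0.5236 := by linarith only [h1, p2]
  -- linear in `k`
  have e7 : 1.086 + τ ^ 3 / 6 + τ ^ 2 / 2 ≤ 1.2617 := by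
    have : τ ^ 2 ≤ 0.5236 ^ 2 := pow_le_pow_left₀ h0 hτ 2
    have : τ ^ 3 ≤ 0.5236 ^ 3 := pow_le_pow_left₀ h0 hτ 3
    norm_num at *
    linarith
  have e8 : 1.086 + τ ^ 3 / 6 + τ ^ 2 / 2 ≤ 1.137 + 0.2617 * τ := by
    have g1 : 0 ≤ τ * (0.5236 - τ) := mul_nonneg h0 (by linarith only [hτ])
    have g2 : 0 ≤ τ ^ 2 * (0.5236 - τ) := mul_nonneg (by positivity) (by linarith only [hτ])
    linarith only [e7, g1, g2]
  have e9 : 1.086 + τ ^ 3 / 6 + τ ^ 2 / 2 ≤ 1 + 2 * k * β + (π / 12 - k) := by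
    rcases le_total (1 / 2) β with h | h
    · have : 0 ≤ k * (2 * β - 1) := mul_nonneg hk0 (by linarith only [h])
      linarith only [p1, e7, this]
    · have g1 : (π / 12 - k) * (2 * β - 1) ≤ 0 := by
        apply mul_nonpos_of_nonneg_of_nonpos
        · rw [hk]; linarith only [ha0]
        · linarith only [h]
      have g2 : 1.137 + 0.2617 * τ ≤ 1 + π / 12 * (2 * β) := by
        rw [hβ]; nlinarith only [h0, p1]
      linarith only [e8, g1, g2]
  linarith only [e3, e4, e5, e9]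

/-- slack at least 0.08: `1/sin c ≤ √2`, `phi c (π/6-τ) ≥ 0.8105`, `phi c (π/6+a) + a/2 ≥ 0.5547`
(concave in a) -/
theorem nS2 {c a τ : ℝ} (hc0 : π / 4 ≤ c) (hc : c < π / 2) (ha0 : 0 ≤ a) (ha : a ≤ π / 6)
    (h0 : 0 ≤ τ) (h1 : τ ≤ π / 6) (hc1 : ¬ c ≤ π / 4) :
    NN c τ ≤ phi c (π / 6 + a) + phi c (π / 6 - τ) + a / 2 := by
  obtain ⟨p1, p2⟩ := pi_bounds
  obtain ⟨q1, q2⟩ := sqrt3_bd
  obtain ⟨r1, r2⟩ := sqrt2_bd
  have hN : NN c τ ≤ 1.278 := by
    have := sub_sin_num h0 h1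
    rcases NN_cases c τ with ⟨h, hN⟩ | ⟨h, h', hN⟩ | ⟨h, hN⟩
    · exact absurd h hc1
    · rw [hN]; linarith only [this]
    · rw [hN]; linarith only [this]
  have hs : Real.sqrt 2 / 2 ≤ Real.sin c := by
    rw [← Real.sin_pi_div_four]
    exact Real.sin_le_sin_of_le_of_le_pi_div_two (by linarith only [p1]) hc.le hc0
  have hs0 : 0 < Real.sin c := by linarith only [r1, hs]
  have h2 : (1 - Real.cos (π / 6 - τ)) / Real.sin c ≤ 0.19 := by
    rw [div_le_iff₀ hs0]
    have := e_le (t := π / 6 - τ) (by linarith only [h1]) (by linarith only [h0])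
    linarith only [r1, hs, this]
  have h3 : (1 - Real.cos (π / 6 + a)) / Real.sin c ≤ 0.19 + a * 1.1 := by
    rw [div_le_iff₀ hs0]
    have b1 : (0.19 + a * 1.1) * 0.7071 ≤ (0.19 + a * 1.1) * Real.sin c :=
      mul_le_mul_of_nonneg_left (by linarith only [r1, hs]) (by linarith only [ha0])
    have b2 : 1 - Real.cos (π / 6 + a) ≤ 0.134 + 0.73 * a := by
      rw [Real.cos_add, Real.cos_pi_div_six, Real.sin_pi_div_six]
      have c1 := Real.one_sub_sq_div_two_le_cos (x := a)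
      have c2 := Real.sin_le ha0
      have c3 : Real.sqrt 3 / 2 * (1 - a ^ 2 / 2) ≤ Real.sqrt 3 / 2 * Real.cos a :=
        mul_le_mul_of_nonneg_left c1 (by linarith only [q1])
      have c4 : Real.sqrt 3 / 2 * (a ^ 2 / 2) ≤ 0.8661 * (a ^ 2 / 2) :=
        mul_le_mul_of_nonneg_right (by linarith only [q2]) (by positivity)
      have c5 : a ^ 2 ≤ 0.5236 * a := by nlinarith only [ha0, ha, p2]
      linarith only [ha0, q1, c2, c3, c4, c5]
    linarith only [ha0, b1, b2]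
  unfold phi
  linarith only [ha, p2, hN, h2, h3]

/-- `phi c ψ + ψ ≥ 1` for `0 ≤ ψ ≤ c` -/
theorem phi_add_ge {c ψ : ℝ} (hc0 : 0 < c) (hc : c < π / 2) (h0 : 0 ≤ ψ) (h1 : ψ ≤ c) :
    1 ≤ phi c ψ + ψ := by
  have hpi := Real.pi_pos
  have hs : 0 < Real.sin c := Real.sin_pos_of_pos_of_lt_pi hc0 (by linarith)
  have h2 : Real.sin ψ ≤ Real.sin c :=
    Real.sin_le_sin_of_le_of_le_pi_div_two (by linarith) hc.le h1
  have h3 : Real.cos 0 - Real.cos ψ ≤ (ψ - 0) * Real.sin ψ :=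
    Pool.Agent.W_8c5d11_g83.cos_sub_le le_rfl h0 (by linarith)
  rw [Real.cos_zero] at h3
  have h4 : (1 - Real.cos ψ) / Real.sin c ≤ ψ := by
    rw [div_le_iff₀ hs]
    have := mul_le_mul_of_nonneg_left h2 h0
    linarith
  unfold phi
  linarith

/-- `phi c ψ + ψ ≥ 1` for `0 ≤ ψ ≤ c`; slack 0.033 -/
theorem nS3 {c a : ℝ} (hc0 : 0 < c) (hc : c < π / 2) (ha0 : π / 6 ≤ a) (ha : a ≤ π / 6 + c) :
    NN c 0 + π / 12 ≤ phi c (a - π / 6) + a := by
  obtain ⟨p1, p2⟩ := pi_bounds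
  have h := phi_add_ge hc0 hc (by linarith only [ha0] : 0 ≤ a - π / 6) (by linarith only [ha])
  have hN : NN c 0 ≤ 1.23 := by
    rcases NN_cases c 0 with ⟨h, hN⟩ | ⟨h, h', hN⟩ | ⟨h, hN⟩ <;> rw [hN] <;>
      simp only [Real.sin_zero, Real.cos_zero] <;> norm_num
  linarith

/-- `phi c ψ + ψ ≥ 1` for `0 ≤ ψ ≤ c`; slack 0.019 -/
theorem nS4 {c a τ : ℝ} (hc0 : 0 < c) (hc : c ≤ π / 3) (ha0 : π / 6 ≤ a) (ha : a ≤ π / 6 + c)
    (h0 : 0 ≤ τ) (h1 : τ ≤ π / 6) :
    NN c τ + π / 12 ≤ phi c (a - π / 6) + a := by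
  obtain ⟨p1, p2⟩ := pi_bounds
  have h := phi_add_ge hc0 (by linarith only [hc0, hc]) (by linarith only [ha0] : 0 ≤ a - π / 6) (by linarith)
  have e1 := sub_sin_num h0 h1
  have e2 := e_le h0 h1
  have hN : NN c τ ≤ 1.245 := by
    rcases NN_cases c τ with ⟨h, hN⟩ | ⟨h, h', hN⟩ | ⟨h, hN⟩
    · rw [hN]; linarith only [e1, e2]
    · rw [hN]; linarith only [e1]
    · linarith only [hc, h]
  linarith only [p1, h, hN]

/-- `1/sin c ≤ 2/√3`; slack 0.14 -/
theorem nS5 {c a τ : ℝ} (hc0 : π / 3 ≤ c) (hc : c < π / 2) (ha0 : π / 6 ≤ a) (ha : a ≤ π / 6 + c)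
    (h0 : 0 ≤ τ) (h1 : τ ≤ π / 6) :
    NN c τ + π / 12 ≤ phi c (π / 6 + a) + phi c (π / 6 - τ) + a := by
  obtain ⟨p1, p2⟩ := pi_bounds
  obtain ⟨q1, q2⟩ := sqrt3_bd
  have e1 := sub_sin_num h0 h1
  have hN : NN c τ ≤ 1.278 := by
    rcases NN_cases c τ with ⟨h, hN⟩ | ⟨h, h', hN⟩ | ⟨h, hN⟩
    · linarith only [hc0, hc, h]
    · rw [hN]; linarith only [e1]
    · rw [hN]; linarith only [e1]
  have hs : Real.sqrt 3 / 2 ≤ Real.sin c := by
    rw [← Real.sin_pi_div_three]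
    exact Real.sin_le_sin_of_le_of_le_pi_div_two (by linarith only [p1]) hc.le hc0
  have hs0 : 0 < Real.sin c := by linarith only [q1, hs]
  have h2 : (1 - Real.cos (π / 6 - τ)) / Real.sin c ≤ 0.155 := by
    rw [div_le_iff₀ hs0]
    have := e_le (t := π / 6 - τ) (by linarith only [h1]) (by linarith only [h0])
    linarith only [q1, hs, this]
  -- the other one
  have h3 : (1 - Real.cos (π / 6 + a)) / Real.sin c ≤ a + 0.30 := by
    rw [div_le_iff₀ hs0]
    have b1 : (a + 0.30) * 0.866 ≤ (a + 0.30) * Real.sin c :=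
      mul_le_mul_of_nonneg_left (by linarith only [q1, hs]) (by linarith only [hc, ha0, ha])
    refine le_trans ?_ b1
    set ψ := π / 6 + a with hψ
    have hψ0 : 1.047 ≤ ψ := by rw [hψ]; linarith only [ha0, p1]
    have haψ : a = ψ - π / 6 := by rw [hψ]; ring
    rcases le_total ψ (π / 2) with h | h
    · have c1 : 1 - 2 / π * ψ ≤ Real.cos ψ :=
        Real.one_sub_mul_le_cos (by linarith only [hψ0]) h
      have c2 : 2 / π * ψ ≤ 0.6367 * ψ := by
        apply mul_le_mul_of_nonneg_right _ (by linarith only [hψ0])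
        rw [div_le_iff₀ (by linarith only [hψ0, h])]; linarith only [p1]
      rw [haψ]
      linarith only [p2, hψ0, c1, c2]
    · have c1 : -(ψ - π / 2) ≤ Real.cos ψ := by
        have : Real.cos ψ = -Real.sin (ψ - π / 2) := by
          rw [Real.sin_sub_pi_div_two]; ring
        rw [this]
        have := Real.sin_le (x := ψ - π / 2) (by linarith only [h])
        linarith only [this]
      have hψ1 : ψ ≤ 2.6181 := by rw [hψ]; linarith only [hc, ha, p2]
      rw [haψ]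
      linarith only [p1, c1, hψ1]
  unfold phi
  linarith

theorem nB_T {t : ℝ} (h0 : 0 ≤ t) (h1 : t ≤ π / 6) : 3 / 2 * t ≤ 2 * Real.sin t := by
  obtain ⟨p1, p2⟩ := pi_bounds
  have h := sin_ge_cubic h0
  have h2 : t ^ 2 ≤ 0.28 := by nlinarith only [h0, h1, p2]
  have h3 : t ^ 3 ≤ 0.28 * t := by
    have : t ^ 3 = t ^ 2 * t := by ring
    rw [this]
    exact mul_le_mul_of_nonneg_right h2 h0
  linarith only [h0, h, h3]

/-- with `z = χ - t ∈ [0, t]` as in `nL_P`; slack 0.05 -/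
theorem nB_P {c χ t : ℝ} (hc0 : 0 < c) (hc : c < π / 2) (hχ0 : π / 6 ≤ χ) (hχ : χ ≤ 2 * t)
    (h1 : t ≤ π / 6) :
    phi c c + χ - t / 2 ≤ (phi c c * Real.cos t + Real.sin χ) / Real.cos (χ - t) := by
  obtain ⟨p1, p2⟩ := pi_bounds
  have h0 : 0 ≤ t := by linarith only [hc0, hc, hχ0, hχ]
  have hm0 := phi_cc_nonneg hc0 hc
  have hm1 := phi_cc_le hc0 hc
  have hQ := quotQ (z := χ - t) hm0 h0 h1 (by linarith only [hc0, hc, hχ0]) (by linarith only [hχ])
  rw [show t + (χ - t) = χ by ring] at hQ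
  have he0 : 0 ≤ 1 - Real.cos t := by linarith only [Real.cos_le_one t]
  have a1 : phi c c * (1 - Real.cos t) ≤ 1 * (1 - Real.cos t) :=
    mul_le_mul_of_nonneg_right (by linarith only [hc0, hm1]) he0
  have a2 := one_sub_cos_le t
  have a3 := sin_ge_cubic h0
  have a4 : t ^ 2 ≤ 0.5236 * t := by nlinarith only [h1, p2, h0]
  have a5 : t ^ 3 ≤ 0.28 * t := by
    have h2 : t ^ 2 ≤ 0.28 := by linarith only [h1, p2, a4]
    have : t ^ 3 = t ^ 2 * t := by ring
    rw [this]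
    exact mul_le_mul_of_nonneg_right h2 h0
  linarith

/-- the three gap inequality: the fraction is `cos (h/2 - θ) / cos (π/6 + h/2)`, which decreases
when `θ` decreases; slack 0.057 (at `θ = max 0 (h - π/6)`, `h = π/6`) -/
theorem n3G {h θ : ℝ} (h0 : 0 ≤ h) (h1 : h ≤ π / 3) (hθ0 : 0 ≤ θ) (hθ1 : h - π / 6 ≤ θ)
    (hθ : θ ≤ h / 2) :
    π / 3 + h / 2 ≤
      (Real.sin (π / 6 + θ) + Real.sin (π / 6 + h - θ)) / Real.sin (π / 3 + h) := by
  obtain ⟨p1, p2⟩ := pi_bounds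
  obtain ⟨q1, q2⟩ := sqrt3_bd
  have hq := sqrt3_sq
  set v := h / 2 with hv
  have hv0 : 0 ≤ v := by rw [hv]; linarith only [h0]
  have hv1 : v ≤ π / 6 := by rw [hv]; linarith only [h1]
  set u := v - θ with hu
  have hu0 : 0 ≤ u := by rw [hu]; linarith only [hθ]
  have e1 : Real.sin (π / 6 + θ) + Real.sin (π / 6 + h - θ) =
      2 * Real.sin (π / 6 + v) * Real.cos u := by
    rw [show π / 6 + h - θ = (π / 6 + v) + u by rw [hu, hv]; ring,
      show π / 6 + θ = (π / 6 + v) - u by rw [hu]; ring, Real.sin_add (π / 6 + v),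
      Real.sin_sub (π / 6 + v)]
    ring
  have e2 : Real.sin (π / 3 + h) = 2 * Real.sin (π / 6 + v) * Real.cos (π / 6 + v) := by
    rw [show π / 3 + h = 2 * (π / 6 + v) by rw [hv]; ring, Real.sin_two_mul]
  have hsin : 0 < Real.sin (π / 3 + h) :=
    Real.sin_pos_of_pos_of_lt_pi (by linarith only [h0, p1]) (by linarith only [h1, p1])
  have hs : 0 < Real.sin (π / 6 + v) :=
    Real.sin_pos_of_pos_of_lt_pi (by linarith only [p1, hv0]) (by linarith)
  rw [le_div_iff₀ hsin, e1, e2]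
  -- `(π / 3 + v) cos (π / 6 + v) ≤ cos u`
  have cv : 0 < Real.cos v := Real.cos_pos_of_mem_Ioo ⟨by linarith only [hθ0, p1, hθ], by linarith only [hθ1, p1, hv, hu0]⟩
  have sv : 0 ≤ Real.sin v := Real.sin_nonneg_of_nonneg_of_le_pi hv0 (by linarith only [hv0, hv1])
  have f1 := Pool.Agent.W_8c5d11_g83.sin_sub_mul_cos_nonneg hv0 (by linarith only [hθ1, p2, hθ, hv])
  have key : (π / 3 + v) * Real.cos (π / 6 + v) ≤ Real.cos u := by
    rcases le_total v (π / 12) with h2 | h2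
    · have g1 : Real.cos v ≤ Real.cos u :=
        Real.cos_le_cos_of_nonneg_of_le_pi hu0 (by linarith only [hθ1, hθ, hv, hv0]) (by rw [hu]; linarith only [hθ0])
      refine le_trans ?_ g1
      rw [Real.cos_add, Real.cos_pi_div_six, Real.sin_pi_div_six]
      -- `(π/3+v)(√3 cos v - sin v) ≤ 2 cos v`
      have g2 : Real.sqrt 3 / 2 * Real.cos v - 1 / 2 * Real.sin v ≤
          (0.866026 - v / 2) * Real.cos v := by nlinarith only [q2, cv, f1]
      have g3 : (π / 3 + v) * (Real.sqrt 3 / 2 * Real.cos v - 1 / 2 * Real.sin v) ≤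
          (π / 3 + v) * ((0.866026 - v / 2) * Real.cos v) :=
        mul_le_mul_of_nonneg_left g2 (by linarith only [hv0, hv1])
      have g4 : (π / 3 + v) * (0.866026 - v / 2) ≤ 1 := by nlinarith only [p2, hv0, hv1]
      have g5 := mul_le_mul_of_nonneg_right g4 cv.le
      linarith only [g3, g5]
    · have g0 : u ≤ π / 6 - v := by rw [hu]; rw [hv] at *; linarith only [hθ1]
      have g1 : Real.cos (π / 6 - v) ≤ Real.cos u :=
        Real.cos_le_cos_of_nonneg_of_le_pi hu0 (by linarith only [hu0, h2, g0]) g0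
      refine le_trans ?_ g1
      rw [Real.cos_add, Real.cos_sub, Real.cos_pi_div_six, Real.sin_pi_div_six]
      -- `(π/3+v)(√3 cos v - sin v) ≤ √3 cos v + sin v`
      have g2 : Real.sqrt 3 / 2 * Real.cos v - 1 / 2 * Real.sin v ≤
          (0.866026 - v / 2) * Real.cos v := by nlinarith only [q2, cv, f1]
      have g3 : (π / 3 + v) * (Real.sqrt 3 / 2 * Real.cos v - 1 / 2 * Real.sin v) ≤
          (π / 3 + v) * ((0.866026 - v / 2) * Real.cos v) :=
        mul_le_mul_of_nonneg_left g2 (by linarith only [hu0, h2, g0])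
      have g4 : (π / 3 + v) * (0.866026 - v / 2) ≤ 0.866 + v / 2 := by nlinarith only [p1, p2, h2]
      have g5 := mul_le_mul_of_nonneg_right g4 cv.le
      nlinarith only [p1, q1, q2, sv, h2, g2, g3, g4]
  nlinarith only [hs, key]

end Pool.Agent.W_8c5d11_f73
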