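import Pool.Agent.W_8c5d11_f73.Cert
import Pool.Agent.W_8c5d11_f73.Num

/-!
MP_8c5d11_gt: middle splits.
-/

open Set
open scoped Real

namespace Pool.Agent.W_8c5d11_f73

open Pool.Agent.W_8c5d11_v22

theorem Cert.mono {c q r r' v : ℝ} (h : Cert c q r v) (hr : r ≤ r') : Cert c q r' v :=
  fun n y θ a b l ha hb hG => h n y θ a b l ha (by linarith) hG

theorem sin_le_cos_aux {χ τ : ℝ} (h0 : 0 ≤ χ) (h1 : χ ≤ π / 3) (h2 : χ ≤ 2 * τ) (h3 : τ ≤ π / 6) :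
    Real.cos τ ≤ Real.cos (χ - τ) ∧ Real.sin χ ≤ Real.cos (χ - τ) := by
  have hpi := Real.pi_pos
  have e1 : Real.cos τ ≤ Real.cos (χ - τ) := by
    rw [← Real.cos_abs (χ - τ)]
    exact Real.cos_le_cos_of_nonneg_of_le_pi (abs_nonneg _) (by linarith)
      (abs_le.2 ⟨by linarith, by linarith⟩)
  refine ⟨e1, le_trans ?_ e1⟩
  calc Real.sin χ ≤ Real.sin (π / 3) :=
        Real.sin_le_sin_of_le_of_le_pi_div_two (by linarith) (by linarith) h1
    _ = Real.cos (π / 6) := by rw [Real.sin_pi_div_three, Real.cos_pi_div_six]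
    _ ≤ Real.cos τ := Real.cos_le_cos_of_nonneg_of_le_pi (by linarith) (by linarith) h3

theorem certP_small {c q τ : ℝ} (hc0 : 0 < c) (hc : c < π / 2) (h0 : 0 ≤ q + c)
    (h1 : q + c ≤ π / 3) (h2 : q + c ≤ 2 * τ) (h3 : τ ≤ π / 6) (h4 : 0 < q + (π / 2 - τ)) :
    Cert c q (π / 2 - τ)
      ((phi c c * Real.cos τ + Real.sin (q + c)) / Real.cos (q + c - τ)) := by
  have hpi := Real.pi_pos
  obtain ⟨e1, e2⟩ := sin_le_cos_aux h0 h1 h2 h3
  have e3 : Real.sin (q + c + (π / 2 - τ)) = Real.cos (q + c - τ) := by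
    rw [← Real.sin_add_pi_div_two]; congr 1; ring
  have e4 : Real.sin (π / 2 - τ) = Real.cos τ := Real.sin_pi_div_two_sub τ
  have h := certP (c := c) (q := q) (r := π / 2 - τ) (χ := q + c) (ρ := π / 2 - τ) hc0 hc h0
    (by linarith) (by linarith) (by linarith) h4 (by rw [e3, e4]; exact e1)
    (by rw [e3]; exact e2)
  rw [e3, e4, sub_self, phi_zero, show q + c - q = c by ring] at h
  convert h using 1
  ring

theorem large_cert {c a τ : ℝ} (hc0 : 0 < c) (hc : c < π / 2) (ha0 : 0 ≤ a) (ha : a ≤ π / 6 + c)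
    (h0 : 0 ≤ τ) (h1 : τ ≤ π / 6) (h4 : 0 < π / 6 - a + (π / 2 - τ)) :
    ∃ v, Cert c (π / 6 - a) (π / 2 - τ) v ∧ Lam c - NN c τ ≤ v + a := by
  have hpi := Real.pi_pos
  by_cases hA : π / 6 + a ≤ c
  · refine ⟨_, certT hc0 hc (χ := π / 3) le_rfl (by linarith) (by linarith) h0 (by linarith)
      (by linarith), ?_⟩
    have h5 := nL_chi ha0 hA hc h0 h1
    rw [show π / 3 - (π / 6 - a) = π / 6 + a by ring]
    linarith
  · have hA' : c < π / 6 + a := not_le.1 hA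
    by_cases hT : 2 * τ ≤ π / 6 - a + c
    · refine ⟨_, certT hc0 hc (χ := π / 6 - a + c) (by linarith) (by linarith) (by linarith) h0 hT
        (by linarith), ?_⟩
      have h5 := nL_T hc0 hc h0 h1
      rw [show π / 6 - a + c - (π / 6 - a) = c by ring]
      linarith
    · have hT' : π / 6 - a + c ≤ 2 * τ := (not_le.1 hT).le
      refine ⟨_, certP_small hc0 hc (by linarith) (by linarith) hT' h1 h4, ?_⟩
      have h5 := nL_P (χ := π / 6 - a + c) hc0 hc (by linarith) hT' h1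
      linarith

theorem cert_eq {c a τ : ℝ} (hc0 : 0 < c) (hc : c < π / 2)
    (h1 : 0 < π / 6 - a + (π / 6 + τ)) :
    Cert c (π / 6 - a) (π / 6 + τ) (phi c (π / 6 + a) + phi c (π / 6 - τ)) := by
  have hpi := Real.pi_pos
  have hs3 : 0 < Real.sin (π / 3) := Real.sin_pos_of_pos_of_lt_pi (by linarith) (by linarith)
  have e3 : Real.sin (π / 3 + π / 3) = Real.sin (π / 3) := by
    rw [← Real.sin_pi_sub]; congr 1; ring
  have h := certP (c := c) (q := π / 6 - a) (r := π / 6 + τ) (χ := π / 3) (ρ := π / 3) hc0 hc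
    (by linarith) (by linarith) (by linarith) (by linarith) h1 e3.ge e3.ge
  rw [e3, div_self hs3.ne', mul_one, mul_one, show π / 3 - (π / 6 - a) = π / 6 + a by ring,
    show π / 3 - (π / 6 + τ) = π / 6 - τ by ring] at h
  exact h

theorem small_cert {c a τ μ : ℝ} (hc0 : 0 < c) (hc : c < π / 2) (ha0 : 0 ≤ a)
    (ha : a ≤ π / 6 + c) (h0 : 0 ≤ τ) (h1 : τ ≤ π / 6) (h4 : 0 < π / 6 - a + (π / 6 + τ))
    (hμa : μ ≤ a) (hμ : μ ≤ π / 6) :
    ∃ v, Cert c (π / 6 - a) (π / 6 + τ) v ∧ NN c τ + μ / 2 ≤ v + a := by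
  have hpi := Real.pi_pos
  by_cases hA : a ≤ π / 6
  · by_cases hC : c ≤ π / 4
    · have e1 : Real.sin (π / 6 + τ) ≤ Real.sin (π / 6 - a + (π / 6 + τ)) :=
        Real.sin_le_sin_of_le_of_le_pi_div_two (by linarith) (by linarith) (by linarith)
      have e2 : Real.sin (π / 6 - a) ≤ Real.sin (π / 6 - a + (π / 6 + τ)) :=
        Real.sin_le_sin_of_le_of_le_pi_div_two (by linarith) (by linarith) (by linarith)
      refine ⟨_, certP (χ := π / 6 - a) (ρ := π / 6 + τ) hc0 hc (by linarith) (by linarith) h4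
        (by linarith) h4 e1 e2, ?_⟩
      have h5 := nS1 hC ha0 hA h0 h1
      rw [sub_self, sub_self, phi_zero, one_mul, one_mul, ← add_div,
        show π / 6 - a + (π / 6 + τ) = π / 3 + τ - a by ring]
      linarith
    · refine ⟨_, cert_eq hc0 hc h4, ?_⟩
      have h5 := nS2 (not_le.1 hC).le hc ha0 hA h0 h1 hC
      linarith
  · have hA' : π / 6 ≤ a := (not_le.1 hA).le
    by_cases hC : c ≤ π / 3
    · refine ⟨_, certS hc0 hc h4, ?_⟩
      have h5 := nS4 hc0 hC hA' ha h0 h1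
      rw [← phi_neg, neg_sub]
      linarith
    · refine ⟨_, cert_eq hc0 hc h4, ?_⟩
      have h5 := nS5 (not_le.1 hC).le hc hA' ha h0 h1
      linarith

theorem mid_aux {c a t r₁ r₂ : ℝ} (hc0 : 0 < c) (hc : c < π / 2) (ha0 : 0 ≤ a)
    (ha : a ≤ π / 6 + c) (ht0 : 0 ≤ t) (ht : t ≤ π / 6 + c) (hr : r₁ + r₂ = 2 * π / 3)
    (h1 : 0 < π / 6 - a + r₁) (h2 : 0 < π / 6 - t + r₂) (ha' : a ≤ π / 6 → π / 6 ≤ r₁)
    (hm : a ≤ π / 6 ∨ t ≤ π / 6) (hle : r₁ ≤ r₂) :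
    ∃ v₁ v₂, Cert c (π / 6 - a) r₁ v₁ ∧ Cert c (π / 6 - t) r₂ v₂ ∧
      Lam c - a - t + min a t / 2 ≤ v₁ + v₂ := by
  have hpi := Real.pi_pos
  have hmin1 : min a t ≤ a := min_le_left _ _
  have hmin2 : min a t ≤ π / 6 := by
    rcases hm with h | h
    · exact hmin1.trans h
    · exact (min_le_right _ _).trans h
  by_cases hr1 : π / 6 ≤ r₁
  · -- `τ = r₁ - π/6`
    obtain ⟨v₁, c1, e1⟩ := small_cert (τ := r₁ - π / 6) hc0 hc ha0 ha (by linarith) (by linarith)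
      (by linarith) hmin1 hmin2
    obtain ⟨v₂, c2, e2⟩ := large_cert (a := t) (τ := r₁ - π / 6) hc0 hc ht0 ht (by linarith)
      (by linarith) (by linarith)
    refine ⟨v₁, v₂, ?_, ?_, by linarith⟩
    · rwa [show π / 6 + (r₁ - π / 6) = r₁ by ring] at c1
    · rwa [show π / 2 - (r₁ - π / 6) = r₂ by linarith] at c2
  · have hA : ¬ a ≤ π / 6 := fun h => hr1 (ha' h)
    have hA' : π / 6 ≤ a := (not_le.1 hA).le
    obtain ⟨v₂, c2, e2⟩ := large_cert (a := t) (τ := 0) hc0 hc ht0 ht le_rfl (by linarith)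
      (by linarith)
    refine ⟨_, v₂, certS hc0 hc h1, c2.mono (by linarith [not_le.1 hr1]), ?_⟩
    have h5 := nS3 hc0 hc hA' ha
    rw [← phi_neg, neg_sub]
    linarith

theorem mid {c a t r₁ r₂ : ℝ} (hc0 : 0 < c) (hc : c < π / 2) (ha0 : 0 ≤ a)
    (ha : a ≤ π / 6 + c) (ht0 : 0 ≤ t) (ht : t ≤ π / 6 + c) (hr : r₁ + r₂ = 2 * π / 3)
    (h1 : 0 < π / 6 - a + r₁) (h2 : 0 < π / 6 - t + r₂) (ha' : a ≤ π / 6 → π / 6 ≤ r₁)
    (ht' : t ≤ π / 6 → π / 6 ≤ r₂) (hm : a ≤ π / 6 ∨ t ≤ π / 6) :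
    ∃ v₁ v₂, Cert c (π / 6 - a) r₁ v₁ ∧ Cert c (π / 6 - t) r₂ v₂ ∧
      Lam c - a - t + min a t / 2 ≤ v₁ + v₂ := by
  rcases le_total r₁ r₂ with h | h
  · exact mid_aux hc0 hc ha0 ha ht0 ht hr h1 h2 ha' hm h
  · obtain ⟨v₂, v₁, c2, c1, e⟩ := mid_aux hc0 hc ht0 ht ha0 ha (by linarith) h2 h1 ht' hm.symm h
    refine ⟨v₁, v₂, c1, c2, ?_⟩
    rw [min_comm] at e
    linarith

end Pool.Agent.W_8c5d11_f73
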