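import Pool.Agent.W_8c5d11_f73.B

/-!
MP_8c5d11_gt: three intervals at the root.
-/

open Set
open scoped Real

namespace Pool.Agent.W_8c5d11_f73

open Pool.Agent.W_8c5d11_v22

theorem pt_shift (R t : ℝ) : pt R (t + 2 * π) = pt R t := by
  apply Complex.ext
  · rw [pt_re, pt_re, Real.cos_add_two_pi]
  · rw [pt_im, pt_im, Real.sin_add_two_pi]

theorem un_shift (t : ℝ) : un (t + 2 * π) = un t := by
  apply Complex.ext <;> simp [un]

theorem Gd.shift {R r : ℝ} {n : ℕ} {y : ℂ} {a b l : ℝ} (h : Gd R r n y a b l) :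
    Gd R r n y (a + 2 * π) (b + 2 * π) l := by
  induction h with
  | leaf h hc =>
    refine Gd.leaf (by linarith) fun t ht => ?_
    have h1 := hc (t - 2 * π) ⟨by linarith [ht.1], by linarith [ht.2]⟩
    rwa [← pt_shift, sub_add_cancel] at h1
  | mono _ ih => exact Gd.mono ih
  | ext _ ih => exact Gd.ext ih
  | split h1 h2 _ _ ih1 ih2 => exact Gd.split (by linarith) (by linarith) ih1 ih2

theorem un_opp (t : ℝ) : un (t + π / 2) = -un (t - π / 2) := by
  rw [← un_add_pi]; congr 1; ring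

/-- one short interval -/
theorem top_small {c : ℝ} (hc0 : 0 < c) (hc : c < π / 2) {n : ℕ} {y : ℂ} {a b d l₁ l₂ l₃ : ℝ}
    (G1 : GG c n y a b l₁) (G2 : GG c n y b d l₂) (G3 : GG c n y d (a + 2 * π) l₃)
    (h1 : b - a ≤ π / 3) (h2 : d - b ≤ π) (h3 : a + 2 * π - d ≤ π) :
    2 * Lam c ≤ l₁ + l₂ + l₃ := by
  have hpi := Real.pi_pos
  have k1 := arc_cert hc0 hc G1.lt.le h1 G1 le_rfl le_rfl
  have k2 := (K_all hc0 hc n).mirror (θ := b + π / 2) (A := π - (d - b)) (by linarith)
    (by linarith) (by linarith) (by linarith) G2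
  have k3 := K_all hc0 hc n y (a - π / 2 + 2 * π) d (a + 2 * π) l₃ (π - (a + 2 * π - d))
    (by linarith) (by linarith) (by linarith) (by linarith) G3
  rw [un_shift] at k3
  rw [un_opp] at k2
  have e1 : dt (un (b - π / 2) - un (a - π / 2)) y =
      dt (un (b - π / 2)) y - dt (un (a - π / 2)) y := by
    simp only [dt, Complex.sub_re, Complex.sub_im]; ring
  have e2 : dt (-un (b - π / 2)) y = -dt (un (b - π / 2)) y := by
    simp only [dt, Complex.neg_re, Complex.neg_im]; ring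
  linarith

theorem un_three (θ : ℝ) : un θ + un (θ + 2 * π / 3) + un (θ + 4 * π / 3) = 0 := by
  have h1 : Real.cos (2 * π / 3) = -(1 / 2) := by
    rw [show 2 * π / 3 = π - π / 3 by ring, Real.cos_pi_sub, Real.cos_pi_div_three]
  have h2 : Real.cos (4 * π / 3) = -(1 / 2) := by
    rw [show 4 * π / 3 = π / 3 + π by ring, Real.cos_add_pi, Real.cos_pi_div_three]
  have h3 : Real.sin (2 * π / 3) = Real.sin (π / 3) := by
    rw [show 2 * π / 3 = π - π / 3 by ring, Real.sin_pi_sub]
  have h4 : Real.sin (4 * π / 3) = -Real.sin (π / 3) := by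
    rw [show 4 * π / 3 = π / 3 + π by ring, Real.sin_add_pi]
  apply Complex.ext
  · simp only [un, Complex.add_re, Real.cos_add, h1, h2, h3, h4, Complex.zero_re]; ring
  · simp only [un, Complex.add_im, Real.sin_add, h1, h2, h3, h4, Complex.zero_im]; ring

/-- three long intervals -/
theorem top_big {c : ℝ} (hc0 : 0 < c) (hc : c < π / 2) {n : ℕ} {y : ℂ} {a b d l₁ l₂ l₃ : ℝ}
    (G1 : GG c n y a b l₁) (G2 : GG c n y b d l₂) (G3 : GG c n y d (a + 2 * π) l₃)
    (h1 : π / 3 ≤ b - a) (h2 : b - a ≤ d - b) (h3 : d - b ≤ a + 2 * π - d)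
    (h4 : a + 2 * π - d ≤ π) : 2 * Lam c ≤ l₁ + l₂ + l₃ := by
  have hpi := Real.pi_pos
  obtain ⟨h, hh⟩ : ∃ h, h = b - a - π / 3 := ⟨_, rfl⟩
  obtain ⟨x, hx⟩ : ∃ x, x = π - (a + 2 * π - d) := ⟨_, rfl⟩
  obtain ⟨θ, hθ⟩ : ∃ θ, θ = min x h / 2 := ⟨_, rfl⟩
  have hb : b = a + π / 3 + h := by linarith
  have hd : d = a + π + x := by linarith
  have b0 : 0 ≤ h := by linarith
  have b1 : 0 ≤ x := by linarith
  have b2 : h ≤ π / 3 := by linarith
  have b3 : x ≤ π / 3 := by linarith
  have m1 : min x h ≤ x := min_le_left _ _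
  have m2 : min x h ≤ h := min_le_right _ _
  have t0 : 0 ≤ θ := by rw [hθ]; have := le_min b1 b0; linarith
  have t1 : θ ≤ h / 2 := by linarith
  have t2 : θ ≤ x / 2 := by linarith
  have t3 : h - π / 6 ≤ θ := by
    rcases min_choice x h with e | e
    · rw [hθ, e]; linarith
    · rw [hθ, e]; linarith
  have t4 : h + x - 2 * θ ≤ π / 3 := by
    rcases min_choice x h with e | e
    · rw [hθ, e]; linarith
    · rw [hθ, e]; linarith
  -- the first interval
  have s0 : Real.sin (π / 3) ≤ Real.sin (π / 3 + h) := by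
    rcases le_total (π / 3 + h) (π / 2) with e | e
    · exact Real.sin_le_sin_of_le_of_le_pi_div_two (by linarith) e (by linarith)
    · rw [← Real.sin_pi_sub (π / 3 + h)]
      exact Real.sin_le_sin_of_le_of_le_pi_div_two (by linarith) (by linarith) (by linarith)
  have s1 : Real.sin (π / 6 + h - θ) ≤ Real.sin (π / 3 + h) :=
    le_trans (Real.sin_le_sin_of_le_of_le_pi_div_two (by linarith) (by linarith) (by linarith)) s0
  have s2 : Real.sin (π / 6 + θ) ≤ Real.sin (π / 3 + h) :=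
    le_trans (Real.sin_le_sin_of_le_of_le_pi_div_two (by linarith) (by linarith) (by linarith)) s0
  have e0 : π / 6 + θ + (π / 6 + h - θ) = π / 3 + h := by ring
  have k1 := certP (q := π / 6 + θ) (r := π / 6 + h - θ) (χ := π / 6 + θ) (ρ := π / 6 + h - θ)
    hc0 hc (by linarith) (by linarith) (by linarith) (by linarith) (by linarith)
    (by rw [e0]; exact s1) (by rw [e0]; exact s2) n y (a + π / 6 + θ) a b l₁ (by linarith)
    (by linarith) G1
  rw [e0, sub_self, sub_self, phi_zero, one_mul, one_mul, ← add_div] at k1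
  -- the second interval
  have k2 := B_all hc0 hc n y (a + π / 6 + θ + 2 * π / 3) b d l₂ (h - θ) (π / 3 - x + θ)
    (by linarith) (by linarith) (by linarith) (by linarith) (Or.inl (by linarith)) (by linarith)
    (by linarith) G2
  have k3 := B_all hc0 hc n y (a + π / 6 + θ + 4 * π / 3) d (a + 2 * π) l₃ (x - θ) θ
    (by linarith) (by linarith) (by linarith) (by linarith) (Or.inr (by linarith)) (by linarith)
    (by linarith) G3
  rw [min_eq_left (by linarith)] at k2
  rw [min_eq_right (by linarith)] at k3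
  have k4 := n3G b0 b2 t0 t3 t1
  rw [add_comm (Real.sin (π / 6 + θ))] at k4
  have e1 := dt_add (un (a + π / 6 + θ) + un (a + π / 6 + θ + 2 * π / 3))
    (un (a + π / 6 + θ + 4 * π / 3)) y
  rw [un_three, dt_zero, dt_add] at e1
  linarith

/-- three long intervals, the first one is the shortest -/
theorem top_min {c : ℝ} (hc0 : 0 < c) (hc : c < π / 2) {n : ℕ} {y : ℂ} {a b d l₁ l₂ l₃ : ℝ}
    (G1 : GG c n y a b l₁) (G2 : GG c n y b d l₂) (G3 : GG c n y d (a + 2 * π) l₃)
    (h1 : π / 3 ≤ b - a) (h2 : b - a ≤ d - b) (h3 : b - a ≤ a + 2 * π - d) (h4 : d - b ≤ π)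
    (h5 : a + 2 * π - d ≤ π) : 2 * Lam c ≤ l₁ + l₂ + l₃ := by
  by_cases h : d - b ≤ a + 2 * π - d
  · exact top_big hc0 hc G1 G2 G3 h1 h2 h h5
  have G2' := G3.conj.shift
  rw [show -(a + 2 * π) + 2 * π = -a by ring] at G2'
  have := top_big hc0 hc G1.conj G2' G2.conj.shift (by linarith) (by linarith) (by linarith)
    (by linarith)
  linarith

/-- **Three intervals at the root.** -/
theorem top_all {c : ℝ} (hc0 : 0 < c) (hc : c < π / 2) {n : ℕ} {y : ℂ} {a b d l₁ l₂ l₃ : ℝ}
    (G1 : GG c n y a b l₁) (G2 : GG c n y b d l₂) (G3 : GG c n y d (a + 2 * π) l₃)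
    (h1 : b - a ≤ π) (h2 : d - b ≤ π) (h3 : a + 2 * π - d ≤ π) :
    2 * Lam c ≤ l₁ + l₂ + l₃ := by
  by_cases s1 : b - a ≤ π / 3
  · exact top_small hc0 hc G1 G2 G3 s1 h2 h3
  by_cases s2 : d - b ≤ π / 3
  · have := top_small hc0 hc G2 G3 G1.shift s2 h3 (by linarith)
    linarith
  by_cases s3 : a + 2 * π - d ≤ π / 3
  · have := top_small hc0 hc G3 G1.shift G2.shift s3 (by linarith) (by linarith)
    linarith
  by_cases t1 : b - a ≤ d - b ∧ b - a ≤ a + 2 * π - d
  · exact top_min hc0 hc G1 G2 G3 (by linarith) t1.1 t1.2 h2 h3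
  by_cases t2 : d - b ≤ a + 2 * π - d ∧ d - b ≤ b - a
  · have := top_min hc0 hc G2 G3 G1.shift (by linarith) t2.1 (by linarith [t2.2]) h3 (by linarith)
    linarith
  · have h6 : a + 2 * π - d ≤ b - a ∧ a + 2 * π - d ≤ d - b := by
      constructor
      · by_contra hcon
        by_cases h7 : b - a ≤ d - b
        · exact t1 ⟨h7, (not_le.1 hcon).le⟩
        · exact t2 ⟨by linarith [not_le.1 h7, not_le.1 hcon], (not_le.1 h7).le⟩
      · by_contra hcon
        by_cases h7 : b - a ≤ d - b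
        · exact t1 ⟨h7, by linarith [not_le.1 hcon]⟩
        · exact t2 ⟨(not_le.1 hcon).le, (not_le.1 h7).le⟩
    have := top_min hc0 hc G3 G1.shift G2.shift (by linarith) (by linarith [h6.1])
      (by linarith [h6.2]) (by linarith) (by linarith)
    linarith

end Pool.Agent.W_8c5d11_f73
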